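import Pool.Agent.Lib.MP_af3a4a_an.P1.CHK.Curve.Nat2

/-!
# Node tails, part 1: one cell between two node duals (council 2, helper62)
-/

set_option autoImplicit false

namespace Pool.Agent.Lib.MP_af3a4a_an.P1.CHK.TAIL

open MeasureTheory intervalIntegral

/-- the bounding polynomial on `[0, 1/2]` -/
noncomputable def hP (E m y t : ℝ) : ℝ :=
  ((1 - 2 * t) * E + 2 * t * m) * (1 + 4 * t * (1 - t) * y)

theorem hP_cont (E m y : ℝ) : Continuous (hP E m y) := by
  unfold hP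
  fun_prop

theorem hP_int (E m y : ℝ) :
    ∫ t in (0 : ℝ)..1 / 2, hP E m y t = E / 4 + m / 4 + y * (E / 8 + 5 * m / 24) := by
  have hd : ∀ t ∈ Set.uIcc (0 : ℝ) (1 / 2), HasDerivAt
      (fun t : ℝ => (t - t ^ 2) * E + t ^ 2 * m +
        y * (E * (2 * t ^ 2 - 4 * t ^ 3 + 2 * t ^ 4) + m * (8 / 3 * t ^ 3 - 2 * t ^ 4)))
      (hP E m y t) t := by
    intro t _
    have h1 : HasDerivAt (fun t : ℝ => t) 1 t := hasDerivAt_id t
    have h2 : HasDerivAt (fun t : ℝ => t ^ 2) (2 * t) t := by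
      have := hasDerivAt_pow 2 t
      norm_num at this
      exact this
    have h3 : HasDerivAt (fun t : ℝ => t ^ 3) (3 * t ^ 2) t := by
      have := hasDerivAt_pow 3 t
      norm_num at this
      exact this
    have h4 : HasDerivAt (fun t : ℝ => t ^ 4) (4 * t ^ 3) t := by
      have := hasDerivAt_pow 4 t
      norm_num at this
      exact this
    have h5 := (((h1.sub h2).mul_const E).add (h2.mul_const m)).add
      (((((h2.const_mul 2).sub (h3.const_mul 4)).add (h4.const_mul 2)).const_mul E).add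
        (((h3.const_mul (8 / 3)).sub (h4.const_mul 2)).const_mul m) |>.const_mul y)
    refine h5.congr_deriv ?_
    unfold hP
    ring
  rw [integral_eq_sub_of_hasDerivAt hd ((hP_cont E m y).intervalIntegrable _ _)]
  ring

/-- one half of a cell -/
theorem half_int {f : ℝ → ℂ} (hf : Continuous f) {x0 D E m y : ℝ}
    (hb : ∀ t, 0 ≤ t → t ≤ 1 / 2 → ‖f (x0 + D * t)‖ ≤ hP E m y t) :
    |∫ x in x0..x0 + D / 2, ‖f x‖| ≤ |D| * (E / 4 + m / 4 + y * (E / 8 + 5 * m / 24)) := by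
  have h1 : D • ∫ t in (0 : ℝ)..1 / 2, ‖f (x0 + D * t)‖ = ∫ x in x0..x0 + D / 2, ‖f x‖ := by
    have := smul_integral_comp_add_mul (fun x => ‖f x‖) (a := 0) (b := 1 / 2) D x0
    rw [this]
    congr 1
    · ring
    · ring
  rw [← h1, smul_eq_mul, abs_mul]
  refine mul_le_mul_of_nonneg_left ?_ (abs_nonneg D)
  rw [← hP_int]
  have hc : Continuous fun t => ‖f (x0 + D * t)‖ := by fun_prop
  rw [abs_of_nonneg (integral_nonneg (by norm_num) fun t _ => norm_nonneg _)]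
  exact integral_mono_on (by norm_num) (hc.intervalIntegrable _ _)
    ((hP_cont E m y).intervalIntegrable _ _) fun t ht => hb t ht.1 ht.2

/-- the exponential between the nodes -/
theorem exp_half {X0 X1 E0 m z y t : ℝ} (hz : Real.exp z - 1 ≤ y)
    (h0 : Real.exp X0 ≤ E0) (hm : Real.exp ((X0 + X1) / 2) ≤ m) (ht0 : 0 ≤ t) (ht1 : t ≤ 1 / 2) :
    Real.exp ((1 - t) * X0 + t * X1 + 4 * t * (1 - t) * z) ≤ hP E0 m y t := by
  rw [Real.exp_add]
  unfold hP
  have hE : 0 ≤ E0 := (Real.exp_pos _).le.trans h0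
  have hm0 : 0 ≤ m := (Real.exp_pos _).le.trans hm
  have h2 : 0 ≤ 1 - 2 * t := by linarith
  have h3 : 0 ≤ 2 * t := by linarith
  have hA : Real.exp ((1 - t) * X0 + t * X1) ≤ (1 - 2 * t) * E0 + 2 * t * m := by
    have hc := convexOn_exp.2 (Set.mem_univ X0) (Set.mem_univ ((X0 + X1) / 2)) h2 h3 (by ring)
    simp only [smul_eq_mul] at hc
    have e : (1 - t) * X0 + t * X1 = (1 - 2 * t) * X0 + 2 * t * ((X0 + X1) / 2) := by ring
    rw [e]
    exact hc.trans (add_le_add (mul_le_mul_of_nonneg_left h0 h2)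
      (mul_le_mul_of_nonneg_left hm h3))
  have hs0 : 0 ≤ 4 * t * (1 - t) := by
    have : 0 ≤ t * (1 - t) := mul_nonneg ht0 (by linarith)
    linarith
  have hs1 : 4 * t * (1 - t) ≤ 1 := by nlinarith [sq_nonneg (1 - 2 * t)]
  have hB : Real.exp (4 * t * (1 - t) * z) ≤ 1 + 4 * t * (1 - t) * y := by
    have hc := convexOn_exp.2 (Set.mem_univ (0 : ℝ)) (Set.mem_univ z)
      (sub_nonneg.2 hs1) hs0 (by ring)
    simp only [smul_eq_mul, mul_zero, zero_add, Real.exp_zero, mul_one] at hc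
    have := mul_le_mul_of_nonneg_left hz hs0
    linarith
  exact mul_le_mul hA hB (Real.exp_pos _).le (by positivity)

/-- **the cell between two nodes** -/
theorem cell_int {f : ℝ → ℂ} (hf : Continuous f) {x0 x1 X0 X1 E0 E1 m z y : ℝ} (hx : x0 ≤ x1)
    (hb : ∀ t, 0 ≤ t → t ≤ 1 → ‖f ((1 - t) * x0 + t * x1)‖ ≤
      Real.exp ((1 - t) * X0 + t * X1 + 4 * t * (1 - t) * z))
    (h0 : Real.exp X0 ≤ E0) (h1 : Real.exp X1 ≤ E1) (hm0 : 0 ≤ m) (hm : E0 * E1 ≤ m ^ 2)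
    (hz : Real.exp z - 1 ≤ y) (hy : 0 ≤ y) :
    ∫ x in x0..x1, ‖f x‖ ≤ (x1 - x0) / 4 * ((E0 + E1 + 2 * m) * (1 + 2 * y / 3)) := by
  have hE0 : 0 ≤ E0 := (Real.exp_pos _).le.trans h0
  have hE1 : 0 ≤ E1 := (Real.exp_pos _).le.trans h1
  obtain ⟨μ, hμ⟩ : ∃ μ, μ = Real.sqrt (E0 * E1) := ⟨_, rfl⟩
  have hμ0 : 0 ≤ μ := by
    rw [hμ]
    exact Real.sqrt_nonneg _
  have hμ2 : μ ^ 2 = E0 * E1 := by
    rw [hμ]
    exact Real.sq_sqrt (mul_nonneg hE0 hE1)
  have hμm : μ ≤ m := by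
    have : μ ^ 2 ≤ m ^ 2 := hμ2.le.trans hm
    exact (pow_le_pow_iff_left₀ hμ0 hm0 two_ne_zero).1 this
  have hμa : 2 * μ ≤ E0 + E1 := by
    have : (2 * μ) ^ 2 ≤ (E0 + E1) ^ 2 := by
      have := sq_nonneg (E0 - E1)
      nlinarith
    exact (pow_le_pow_iff_left₀ (by linarith) (by linarith) two_ne_zero).1 this
  have hmid : Real.exp ((X0 + X1) / 2) ≤ μ := by
    have h5 : Real.exp ((X0 + X1) / 2) ^ 2 ≤ μ ^ 2 := by
      rw [hμ2, ← Real.exp_nat_mul]
      have e : ((2 : ℕ) : ℝ) * ((X0 + X1) / 2) = X0 + X1 := by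
        push_cast
        ring
      rw [e, Real.exp_add]
      exact mul_le_mul h0 h1 (Real.exp_pos _).le hE0
    exact (pow_le_pow_iff_left₀ (Real.exp_pos _).le hμ0 two_ne_zero).1 h5
  have hmid' : Real.exp ((X1 + X0) / 2) ≤ μ := by rwa [add_comm X1 X0]
  have hL := half_int hf (x0 := x0) (D := x1 - x0) (E := E0) (m := μ) (y := y) fun t t0 t1 => by
    have := (hb t t0 (by linarith)).trans (exp_half hz h0 hmid t0 t1)
    have e : x0 + (x1 - x0) * t = (1 - t) * x0 + t * x1 := by ring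
    rw [e]
    exact this
  have hR := half_int hf (x0 := x1) (D := x0 - x1) (E := E1) (m := μ) (y := y) fun t t0 t1 => by
    have h6 := hb (1 - t) (by linarith) (by linarith)
    have e1 : (1 - (1 - t)) * X0 + (1 - t) * X1 + 4 * (1 - t) * (1 - (1 - t)) * z =
        (1 - t) * X1 + t * X0 + 4 * t * (1 - t) * z := by ring
    rw [e1] at h6
    have := h6.trans (exp_half hz h1 hmid' t0 t1)
    have e : x1 + (x0 - x1) * t = (1 - (1 - t)) * x0 + (1 - t) * x1 := by ring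
    rw [e]
    exact this
  have c1 : x0 + (x1 - x0) / 2 = (x0 + x1) / 2 := by ring
  have c2 : x1 + (x0 - x1) / 2 = (x0 + x1) / 2 := by ring
  rw [c1, abs_of_nonneg (by linarith : 0 ≤ x1 - x0)] at hL
  rw [c2, abs_sub_comm x0 x1, abs_of_nonneg (by linarith : 0 ≤ x1 - x0), integral_symm,
    abs_neg] at hR
  have hc : Continuous fun x => ‖f x‖ := by fun_prop
  have hsplit : ∫ x in x0..x1, ‖f x‖ =
      (∫ x in x0..(x0 + x1) / 2, ‖f x‖) + ∫ x in (x0 + x1) / 2..x1, ‖f x‖ :=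
    (integral_add_adjacent_intervals (hc.intervalIntegrable _ _)
      (hc.intervalIntegrable _ _)).symm
  rw [hsplit]
  have h7 := le_abs_self (∫ x in x0..(x0 + x1) / 2, ‖f x‖)
  have h8 := le_abs_self (∫ x in (x0 + x1) / 2..x1, ‖f x‖)
  have hD : 0 ≤ x1 - x0 := by linarith
  have key : (E0 / 4 + μ / 4 + y * (E0 / 8 + 5 * μ / 24)) +
      (E1 / 4 + μ / 4 + y * (E1 / 8 + 5 * μ / 24)) ≤
      1 / 4 * ((E0 + E1 + 2 * m) * (1 + 2 * y / 3)) := by
    have k1 : (E0 + E1 + 2 * μ) * (1 + 2 * y / 3) ≤ (E0 + E1 + 2 * m) * (1 + 2 * y / 3) := by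
      apply mul_le_mul_of_nonneg_right _ (by positivity)
      linarith
    have k2 : 0 ≤ y * (E0 + E1 - 2 * μ) := mul_nonneg hy (by linarith)
    nlinarith
  have := mul_le_mul_of_nonneg_left key hD
  nlinarith

end Pool.Agent.Lib.MP_af3a4a_an.P1.CHK.TAIL
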