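import Pool.Agent.Lib.MP_af3a4a_an.P1.CHK.TAIL.Fam

/-!
# Tails, part 4: the minimum over the polar box, the numbers `eE` (council 2, helper62)
-/

set_option autoImplicit false

namespace Pool.Agent.Lib.MP_af3a4a_an.P1.CHK.TAIL

open Pool.Agent.Lib.MP_af3a4a_an.P1.CHK.Arith
open Pool.Agent.Lib.MP_af3a4a_an.P1.CHK.Curve (bi bi_eq bi_true bi_false uE c40)
open Pool.Agent.Lib.MP_af3a4a_an.P1.CHK.BOX (tc ts trig_tab)

/-- lower bound of `γ cos g + δ sin g` on an arc -/
theorem arc_min {ga de g g0 g1 L : ℝ} (h0 : g0 ≤ g) (h1 : g ≤ g1) (hD : g1 - g0 < Real.pi)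
    (hA : L ≤ ga * Real.cos g0 + de * Real.sin g0)
    (hB : L ≤ ga * Real.cos g1 + de * Real.sin g1)
    (hC : 0 ≤ (ga * Real.cos g0 + de * Real.sin g0) + (ga * Real.cos g1 + de * Real.sin g1) ∨
      L * (1 + Real.cos (g1 - g0)) ≤
        (ga * Real.cos g0 + de * Real.sin g0) + (ga * Real.cos g1 + de * Real.sin g1)) :
    L ≤ ga * Real.cos g + de * Real.sin g := by
  rcases eq_or_lt_of_le (h0.trans h1) with h | h
  · have : g = g0 := le_antisymm (by linarith) h0
    rw [this]
    exact hA
  set A := ga * Real.cos g0 + de * Real.sin g0 with hAd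
  set B := ga * Real.cos g1 + de * Real.sin g1 with hBd
  set D := g1 - g0 with hDd
  have hD0 : 0 < D := by linarith
  have hs : 0 < Real.sin D := Real.sin_pos_of_pos_of_lt_pi hD0 hD
  have hsa : 0 ≤ Real.sin (g1 - g) := Real.sin_nonneg_of_nonneg_of_le_pi (by linarith) (by linarith)
  have hsb : 0 ≤ Real.sin (g - g0) := Real.sin_nonneg_of_nonneg_of_le_pi (by linarith) (by linarith)
  have hf : (ga * Real.cos g + de * Real.sin g) * Real.sin D =
      Real.sin (g1 - g) * A + Real.sin (g - g0) * B := by
    rw [hAd, hBd, hDd, Real.sin_sub, Real.sin_sub, Real.sin_sub]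
    ring
  have e1 : Real.sin (g1 - g) + Real.sin (g - g0) * Real.cos D =
      Real.sin D * Real.cos (g - g0) := by
    have : g1 - g = D - (g - g0) := by rw [hDd]; ring
    rw [this, Real.sin_sub]
    ring
  have e2 : Real.sin (g - g0) + Real.sin (g1 - g) * Real.cos D =
      Real.sin D * Real.cos (g1 - g) := by
    have : g - g0 = D - (g1 - g) := by rw [hDd]; ring
    rw [this, Real.sin_sub]
    ring
  set a := Real.sin (g1 - g) with ha
  set b := Real.sin (g - g0) with hb
  set c := Real.cos D with hc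
  set s := Real.sin D with hsd
  have hc1 : c < 1 := by
    have := Real.sin_sq_add_cos_sq D
    rw [← hc, ← hsd] at this
    nlinarith [Real.cos_le_one D]
  have hc2 : 0 ≤ 1 + c := by linarith [Real.neg_one_le_cos D]
  have i1 : a + b * c ≤ s := by
    rw [e1]
    have := Real.cos_le_one (g - g0)
    nlinarith
  have i2 : b + a * c ≤ s := by
    rw [e2]
    have := Real.cos_le_one (g1 - g)
    nlinarith
  have i3 : s ≤ a + b := by
    -- `a = s cos (g - g0) - b c`, `b = s cos (g1 - g) - a c`
    have k1 : s ^ 2 = 1 - c ^ 2 := by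
      have := Real.sin_sq_add_cos_sq D
      rw [← hc, ← hsd] at this
      linarith
    have k2 : a ^ 2 + b ^ 2 + 2 * a * b * c = s ^ 2 := by
      have f1 : Real.cos (g - g0) ^ 2 + b ^ 2 = 1 := by
        have := Real.sin_sq_add_cos_sq (g - g0)
        rw [hb]
        linarith
      have f2 : a = s * Real.cos (g - g0) - b * c := by linarith
      rw [f2]
      have f3 : Real.cos (g - g0) ^ 2 = 1 - b ^ 2 := by linarith
      have : (s * Real.cos (g - g0) - b * c) ^ 2 + b ^ 2 +
          2 * (s * Real.cos (g - g0) - b * c) * b * c =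
          s ^ 2 * Real.cos (g - g0) ^ 2 + b ^ 2 * (1 - c ^ 2) := by ring
      rw [this, f3, ← k1]
      ring
    have k3 : s ^ 2 ≤ (a + b) ^ 2 := by
      have : 0 ≤ a * b * (1 - c) := mul_nonneg (mul_nonneg hsa hsb) (by linarith)
      nlinarith
    exact (pow_le_pow_iff_left₀ hs.le (add_nonneg hsa hsb) two_ne_zero).1 k3
  by_cases hL : 0 ≤ L ∧ 0 ≤ A + B
  · have j1 := mul_le_mul_of_nonneg_left hA hsa
    have j2 := mul_le_mul_of_nonneg_left hB hsb
    have j3 := mul_le_mul_of_nonneg_right i3 hL.1
    have : L * s ≤ (ga * Real.cos g + de * Real.sin g) * s := by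
      rw [hf]
      linarith
    exact le_of_mul_le_mul_right this hs
  · have hC' : L * (1 + c) ≤ A + B := by
      rcases hC with h5 | h5
      · have : L < 0 := by
          by_contra hn
          exact hL ⟨not_lt.1 hn, h5⟩
        have := mul_nonpos_of_nonpos_of_nonneg this.le hc2
        linarith
      · exact h5
    have j1 := mul_le_mul_of_nonneg_left hA (by linarith : 0 ≤ s - (b + a * c))
    have j2 := mul_le_mul_of_nonneg_left hB (by linarith : 0 ≤ s - (a + b * c))
    have j3 := mul_le_mul_of_nonneg_left hC' (by linarith : 0 ≤ a + b - s)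
    have e5 : (1 - c) * ((ga * Real.cos g + de * Real.sin g) * s) =
        (s - (b + a * c)) * A + (s - (a + b * c)) * B + (a + b - s) * (A + B) := by
      rw [hf]
      ring
    have e6 : (1 - c) * (L * s) = (s - (b + a * c)) * L + (s - (a + b * c)) * L +
        (a + b - s) * (L * (1 + c)) := by
      ring
    have e7 : (1 - c) * (L * s) ≤ (1 - c) * ((ga * Real.cos g + de * Real.sin g) * s) := by
      rw [e5, e6]
      linarith
    have e8 := le_of_mul_le_mul_left e7 (by linarith : 0 < 1 - c)
    exact le_of_mul_le_mul_right e8 hs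

theorem ngA_ge {G D g : ℕ} (hG : G < 16777216) (hD : D < 16777216) (hg : g ≤ 256) :
    (1208925819614629174706176 : ℝ) -
      1152921504606846976 * (fr G * Real.cos (g / 64) + fr D * Real.sin (g / 64)) ≤
      (ngA G D (tc g) (ts g) : ℝ) := by
  obtain ⟨hc, hs⟩ := trig_tab hg
  rw [ngA_def]
  refine le_trans ?_ (sub_le_cast _ _)
  push_cast
  norm_num at hc hs
  have hGr : |(G : ℝ) - 8388608| ≤ 8388608 := by
    have : (G : ℝ) < 16777216 := by exact_mod_cast hG
    have : (0 : ℝ) ≤ G := Nat.cast_nonneg _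
    rw [abs_le]
    constructor <;> linarith
  have hDr : |(D : ℝ) - 8388608| ≤ 8388608 := by
    have : (D : ℝ) < 16777216 := by exact_mod_cast hD
    have : (0 : ℝ) ≤ D := Nat.cast_nonneg _
    rw [abs_le]
    constructor <;> linarith
  set x := ((tc g : ℕ) : ℝ) - 2199023255552 - 1099511627776 * Real.cos (g / 64) with hx
  set y := ((ts g : ℕ) : ℝ) - 2199023255552 - 1099511627776 * Real.sin (g / 64) with hy
  have hx1 : |((G : ℝ) - 8388608) * x| ≤ 8388608 := by
    rw [abs_mul]
    calc |(G : ℝ) - 8388608| * |x| ≤ 8388608 * 1 :=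
          mul_le_mul hGr hc (abs_nonneg _) (by norm_num)
      _ = 8388608 := by norm_num
  have hy1 : |((D : ℝ) - 8388608) * y| ≤ 8388608 := by
    rw [abs_mul]
    calc |(D : ℝ) - 8388608| * |y| ≤ 8388608 * 1 :=
          mul_le_mul hDr hs (abs_nonneg _) (by norm_num)
      _ = 8388608 := by norm_num
  have h1 := (abs_le.1 hx1).2
  have h2 := (abs_le.1 hy1).2
  have e : (1208925819614629174706176 : ℝ) -
      1152921504606846976 * (fr G * Real.cos (g / 64) + fr D * Real.sin (g / 64)) =
      (1208925819614629174706176 + 16777216 + (8388608 * ((tc g : ℝ) + ts g) +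
        2199023255552 * ((G : ℝ) + D))) -
      ((G : ℝ) * tc g + D * ts g + 36893488147419103232) +
      (((G : ℝ) - 8388608) * x + ((D : ℝ) - 8388608) * y - 16777216) := by
    rw [hx, hy]
    unfold fr
    ring
  rw [e]
  linarith

theorem mx2_ge (a b : ℕ) : a ≤ mx2 a b ∧ b ≤ mx2 a b := by
  rw [mx2_def, bi_eq]
  rcases Bool.eq_false_or_eq_true (Nat.ble a b) with h | h
  · rw [h, cond_true]
    exact ⟨Nat.le_of_ble_eq_true h, le_rfl⟩
  · rw [h, cond_false]
    have : ¬ a ≤ b := by
      intro h'
      rw [Nat.ble_eq_true_of_le h'] at h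
      cases h
    exact ⟨le_rfl, by omega⟩

theorem mxA_ge {ga de g : ℝ} {g0 g1 a b : ℕ} (hg0 : g0 ≤ g1) (hg1 : g1 - g0 ≤ 100)
    (h0 : (g0 : ℝ) / 64 ≤ g) (h1 : g ≤ (g1 : ℝ) / 64)
    (ha : (1208925819614629174706176 : ℝ) -
      1152921504606846976 * (ga * Real.cos (g0 / 64) + de * Real.sin (g0 / 64)) ≤ (a : ℝ))
    (hb : (1208925819614629174706176 : ℝ) -
      1152921504606846976 * (ga * Real.cos (g1 / 64) + de * Real.sin (g1 / 64)) ≤ (b : ℝ)) :
    ((1208925819614629174706176 : ℝ) - (mxA a b (tc (g1 - g0)) : ℝ)) / 1152921504606846976 ≤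
      ga * Real.cos g + de * Real.sin g := by
  have hcast : ((g1 - g0 : ℕ) : ℝ) = (g1 : ℝ) - g0 := Nat.cast_sub hg0
  have hd : (g1 : ℝ) / 64 - (g0 : ℝ) / 64 = ((g1 - g0 : ℕ) : ℝ) / 64 := by
    rw [hcast]
    ring
  have hpi := Real.pi_gt_d6
  have h100 : ((g1 - g0 : ℕ) : ℝ) ≤ 100 := by exact_mod_cast hg1
  obtain ⟨htc, -⟩ := trig_tab (show g1 - g0 ≤ 256 by omega)
  norm_num at htc
  have htc' := abs_le.1 htc
  have hcosn : 0 ≤ Real.cos (((g1 - g0 : ℕ) : ℝ) / 64) := by
    apply Real.cos_nonneg_of_neg_pi_div_two_le_of_le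
    · have : (0 : ℝ) ≤ ((g1 - g0 : ℕ) : ℝ) := Nat.cast_nonneg _
      linarith
    · linarith
  apply arc_min h0 h1
  · rw [hd]
    linarith
  · rw [div_le_iff₀ (by norm_num)]
    have hm : (a : ℝ) ≤ (mxA a b (tc (g1 - g0)) : ℝ) := by
      have h5 : a ≤ mxA a b (tc (g1 - g0)) := by
        rw [mxA_def, bi_eq]
        rcases Bool.eq_false_or_eq_true (Nat.ble (a + b) 2417851639229258349412352) with h | h
        · rw [h, cond_true]
          exact (mx2_ge a b).1
        · rw [h, cond_false]
          exact (mx2_ge a b).1.trans (mx2_ge _ _).1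
      exact_mod_cast h5
    linarith
  · rw [div_le_iff₀ (by norm_num)]
    have hm : (b : ℝ) ≤ (mxA a b (tc (g1 - g0)) : ℝ) := by
      have h5 : b ≤ mxA a b (tc (g1 - g0)) := by
        rw [mxA_def, bi_eq]
        rcases Bool.eq_false_or_eq_true (Nat.ble (a + b) 2417851639229258349412352) with h | h
        · rw [h, cond_true]
          exact (mx2_ge a b).2
        · rw [h, cond_false]
          exact (mx2_ge a b).2.trans (mx2_ge _ _).1
      exact_mod_cast h5
    linarith
  · rcases le_or_gt (a + b) 2417851639229258349412352 with h | h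
    · left
      have h' : (a : ℝ) + b ≤ 2417851639229258349412352 := by exact_mod_cast h
      linarith
    · right
      rw [hd]
      set C := Real.cos (((g1 - g0 : ℕ) : ℝ) / 64) with hC
      set cd := tc (g1 - g0) with hcd
      have hcd1 : 2199023255551 ≤ cd := by
        have : (2199023255551 : ℝ) ≤ (cd : ℝ) := by linarith
        exact_mod_cast this
      have hlt : 0 < cd - 1099511627777 := by omega
      have hm : ((1208925819614629174706176 +
          ((a + b - 2417851639229258349412352) * 1099511627776 / (cd - 1099511627777)) + 1 : ℕ) : ℝ)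
          ≤ (mxA a b cd : ℝ) := by
        have h5 : 1208925819614629174706176 +
          ((a + b - 2417851639229258349412352) * 1099511627776 / (cd - 1099511627777)) + 1 ≤
            mxA a b cd := by
          rw [mxA_def, bi_eq]
          have hf : Nat.ble (a + b) 2417851639229258349412352 = false := by
            rw [Bool.eq_false_iff, ne_eq, Nat.ble_eq]
            omega
          rw [hf, cond_false]
          exact (mx2_ge _ _).2
        exact_mod_cast h5
      have hq := real_le_div ((a + b - 2417851639229258349412352) * 1099511627776)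
        (cd - 1099511627777) hlt
      have hX : (((a + b - 2417851639229258349412352) * 1099511627776 : ℕ) : ℝ) =
          ((a : ℝ) + b - 2417851639229258349412352) * 1099511627776 := by
        rw [Nat.cast_mul, Nat.cast_sub h.le]
        push_cast
        ring
      have hY : ((cd - 1099511627777 : ℕ) : ℝ) = (cd : ℝ) - 1099511627777 := by
        rw [Nat.cast_sub (by omega)]
        push_cast
        ring
      rw [hX, hY] at hq
      have hYp : (0 : ℝ) < (cd : ℝ) - 1099511627777 := by
        rw [← hY]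
        exact_mod_cast hlt
      rw [div_le_iff₀ hYp] at hq
      push_cast at hm hq
      set q : ℝ := ((((a + b - 2417851639229258349412352) * 1099511627776 /
        (cd - 1099511627777) : ℕ)) : ℝ) with hqd
      have hq0 : 0 ≤ q := Nat.cast_nonneg _
      -- `1 + C ≥ (cd - S - 1)/S`
      have hC1 : (cd : ℝ) - 1099511627777 ≤ 1099511627776 * (1 + C) := by linarith
      have hkey : ((a : ℝ) + b - 2417851639229258349412352) ≤ (q + 1) * (1 + C) := by
        have := mul_le_mul_of_nonneg_left hC1 (by linarith : 0 ≤ q + 1)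
        linarith
      have hmm : (q + 1) * (1 + C) ≤
          ((mxA a b cd : ℝ) - 1208925819614629174706176) * (1 + C) := by
        apply mul_le_mul_of_nonneg_right _ (by linarith)
        linarith
      have : ((1208925819614629174706176 : ℝ) - (mxA a b cd : ℝ)) / 1152921504606846976 * (1 + C) =
          (-(((mxA a b cd : ℝ) - 1208925819614629174706176) * (1 + C))) / 1152921504606846976 := by
        ring
      rw [this, div_le_iff₀ (by norm_num)]
      linarith

theorem field_lt (x : ℕ) : x % 16777216 < 16777216 := Nat.mod_lt _ (by norm_num)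

/-- the exponentials of a cell -/
theorem eE_ge {N Na Nb r0 r1 mx H : ℕ} {r f : ℝ} (hNa : Na ≤ N) (hNb : N ≤ Nb)
    (hr0 : (r0 : ℝ) / 4096 ≤ r) (hr1 : r ≤ (r1 : ℝ) / 4096)
    (hf : ((1208925819614629174706176 : ℝ) - (mx : ℝ)) / 1152921504606846976 ≤ f) :
    Real.exp (-(N * (fr H + r * f))) ≤
      (eE Na Nb (eV1 r0 r1 mx) (eV2 r0 r1 mx) H : ℝ) / 1099511627776 := by
  rw [eE_def, eV1_def, eV2_def]
  set rr := eR r0 r1 mx with hrr
  set V1 := rr * (mx - 1208925819614629174706176) + 37778931862957161709568 with hV1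
  set V2 := rr * (1208925819614629174706176 - mx) with hV2
  show _ ≤ (es (((Nb * (V1 - (V2 + H * 4503599627370496))) >>> 32) + 1)
    ((Na * ((V2 + H * 4503599627370496) - V1)) >>> 32) : ℝ) / 1099511627776
  set vn := V2 + H * 4503599627370496 with hvn
  have hes := es_spec (((Nb * (V1 - vn)) >>> 32) + 1) ((Na * (vn - V1)) >>> 32)
  rw [c40] at hes
  refine le_trans (Real.exp_le_exp.2 ?_) hes
  have hNar : (Na : ℝ) ≤ N := by exact_mod_cast hNa
  have hNbr : (N : ℝ) ≤ Nb := by exact_mod_cast hNb
  have hN0 : (0 : ℝ) ≤ N := Nat.cast_nonneg _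
  have hrn : 0 ≤ r := le_trans (by positivity) hr0
  -- `r f ≥ rr (OFF - mx) / 2^72`
  have hrf : (rr : ℝ) / 4096 * (((1208925819614629174706176 : ℝ) - (mx : ℝ)) /
      1152921504606846976) ≤ r * f := by
    have e1 := mul_le_mul_of_nonneg_left hf hrn
    refine le_trans ?_ e1
    rw [hrr, eR_def, bi_eq]
    rcases le_or_gt mx 1208925819614629174706176 with h | h
    · rw [Nat.ble_eq_true_of_le h, cond_true]
      apply mul_le_mul_of_nonneg_right hr0
      apply div_nonneg _ (by norm_num)
      have : (mx : ℝ) ≤ 1208925819614629174706176 := by exact_mod_cast h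
      linarith
    · have hb : Nat.ble mx 1208925819614629174706176 = false := by
        rw [Bool.eq_false_iff, ne_eq, Nat.ble_eq]
        omega
      rw [hb, cond_false]
      apply mul_le_mul_of_nonpos_right hr1
      apply div_nonpos_of_nonpos_of_nonneg _ (by norm_num)
      have : (1208925819614629174706176 : ℝ) < mx := by exact_mod_cast h
      linarith
  have hV : ((V1 : ℝ) - vn) / 4722366482869645213696 =
      -(fr H + (rr : ℝ) / 4096 * (((1208925819614629174706176 : ℝ) - (mx : ℝ)) /
        1152921504606846976)) := by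
    have hs : (((mx - 1208925819614629174706176 : ℕ) : ℝ) -
        ((1208925819614629174706176 - mx : ℕ) : ℝ)) = (mx : ℝ) - 1208925819614629174706176 := by
      rcases le_total mx 1208925819614629174706176 with h | h
      · rw [Nat.sub_eq_zero_of_le h, Nat.cast_sub h]
        push_cast
        ring
      · rw [Nat.sub_eq_zero_of_le h, Nat.cast_sub h]
        push_cast
        ring
    have e : (V1 : ℝ) - vn = rr * (((mx - 1208925819614629174706176 : ℕ) : ℝ) -
        ((1208925819614629174706176 - mx : ℕ) : ℝ)) + 37778931862957161709568 -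
        H * 4503599627370496 := by
      rw [hV1, hvn, hV2, Nat.cast_add, Nat.cast_mul, Nat.cast_add, Nat.cast_mul, Nat.cast_mul]
      push_cast
      ring
    rw [e, hs]
    unfold fr
    ring
  have hle : -(N * (fr H + r * f)) ≤ N * (((V1 : ℝ) - vn) / 4722366482869645213696) := by
    rw [hV]
    have := mul_le_mul_of_nonneg_left (add_le_add (le_refl (fr H)) hrf) hN0
    linarith
  refine hle.trans ?_
  rcases le_total vn V1 with h | h
  · have hz : vn - V1 = 0 := Nat.sub_eq_zero_of_le h
    rw [hz, Nat.mul_zero, Nat.zero_shiftRight, Nat.cast_zero, zero_div, sub_zero]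
    have h1 := le_shr (Nb * (V1 - vn)) 32
    have h2 : ((Nb * (V1 - vn) : ℕ) : ℝ) = Nb * ((V1 : ℝ) - vn) := by
      rw [Nat.cast_mul, Nat.cast_sub h]
    rw [h2] at h1
    have h3 : 0 ≤ (V1 : ℝ) - vn := by
      have : (vn : ℝ) ≤ V1 := by exact_mod_cast h
      linarith
    have h4 : (N : ℝ) * (((V1 : ℝ) - vn) / 4722366482869645213696) ≤
        Nb * (((V1 : ℝ) - vn) / 4722366482869645213696) :=
      mul_le_mul_of_nonneg_right hNbr (by positivity)
    refine h4.trans ?_
    refine le_trans (le_of_eq ?_) (div_le_div_of_nonneg_right h1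
      (show (0 : ℝ) ≤ 1099511627776 by norm_num))
    norm_num
    ring
  · have hz : V1 - vn = 0 := Nat.sub_eq_zero_of_le h
    rw [hz, Nat.mul_zero, Nat.zero_shiftRight]
    have h1 := shr_le (Na * (vn - V1)) 32
    have h2 : ((Na * (vn - V1) : ℕ) : ℝ) = Na * ((vn : ℝ) - V1) := by
      rw [Nat.cast_mul, Nat.cast_sub h]
    rw [h2] at h1
    have h3 : (V1 : ℝ) - vn ≤ 0 := by
      have : (V1 : ℝ) ≤ vn := by exact_mod_cast h
      linarith
    have h4 : (N : ℝ) * (((V1 : ℝ) - vn) / 4722366482869645213696) ≤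
        Na * (((V1 : ℝ) - vn) / 4722366482869645213696) :=
      mul_le_mul_of_nonpos_right hNar (div_nonpos_of_nonpos_of_nonneg h3 (by norm_num))
    refine h4.trans ?_
    have h5 := div_le_div_of_nonneg_right h1 (show (0 : ℝ) ≤ 1099511627776 by norm_num)
    have h6 : (Na : ℝ) * (((V1 : ℝ) - vn) / 4722366482869645213696) =
        -(Na * ((vn : ℝ) - V1) / 2 ^ 32 / 1099511627776) := by
      norm_num
      ring
    rw [h6]
    push_cast
    have h7 : (0 : ℝ) ≤ (0 + 1) / 1099511627776 := by norm_num
    linarith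

end Pool.Agent.Lib.MP_af3a4a_an.P1.CHK.TAIL
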