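import Pool.Agent.Lib.MP_af3a4a_an.P1.CHK.TAIL.NDefs
import Pool.Agent.Lib.MP_af3a4a_an.P1.CHK.TAIL.Arc

/-!
# Node tails, part 3: the numbers (council 2, helper62)
-/

set_option autoImplicit false

namespace Pool.Agent.Lib.MP_af3a4a_an.P1.CHK.TAIL

open Pool.Agent.Lib.MP_af3a4a_an.P1.CHK.Arith
open Pool.Agent.Lib.MP_af3a4a_an.P1.CHK.Curve (bi bi_eq bi_true bi_false c40)
open Pool.Agent.Lib.MP_af3a4a_an.P1.CHK.BOX (tc ts trig_tab)

theorem exp_neg_quad {t : ℝ} (ht : 0 ≤ t) : Real.exp (-t) ≤ 1 - t + t ^ 2 / 2 := by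
  have h1 := Real.quadratic_le_exp_of_nonneg ht
  have h2 : 0 < 1 + t + t ^ 2 / 2 := by positivity
  have h3 : Real.exp (-t) ≤ 1 / (1 + t + t ^ 2 / 2) := by
    rw [Real.exp_neg, ← one_div]
    exact one_div_le_one_div_of_le h2 h1
  refine h3.trans ?_
  rw [div_le_iff₀ h2]
  have : (1 - t + t ^ 2 / 2) * (1 + t + t ^ 2 / 2) = 1 + t ^ 4 / 4 := by ring
  rw [this]
  have : 0 ≤ t ^ 4 := by positivity
  linarith

theorem emF_spec (m : ℕ) : Real.exp (-((m : ℝ) / 1099511627776)) ≤
    (emF m : ℝ) / 1099511627776 := by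
  rw [emF_def]
  show _ ≤ (((((((1099511627776 - (m >>> 8)) ^ 2) + 1208925819614629174706176) >>> 41) + 1) ^ 256
    >>> 10200 + 1 : ℕ) : ℝ) / 1099511627776
  set t := m >>> 8 with ht
  have ht1 : (t : ℝ) ≤ m / 2 ^ 8 := by rw [ht]; exact shr_le m 8
  have e1 : Real.exp (-((m : ℝ) / 1099511627776)) =
      Real.exp (-((m : ℝ) / 281474976710656)) ^ 256 := by
    rw [← pow256]
    congr 1
    ring
  have e2 : Real.exp (-((m : ℝ) / 281474976710656)) ≤
      Real.exp (-((t : ℝ) / 1099511627776)) := by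
    apply Real.exp_le_exp.2
    rw [neg_le_neg_iff, div_le_div_iff₀ (by norm_num) (by norm_num)]
    norm_num at ht1
    rw [le_div_iff₀ (by norm_num)] at ht1
    linarith
  have ht0 : (0 : ℝ) ≤ t := Nat.cast_nonneg _
  set p := (((1099511627776 - t) ^ 2 + 1208925819614629174706176) >>> 41) + 1 with hp
  have h41 := le_shr ((1099511627776 - t) ^ 2 + 1208925819614629174706176) 41
  rw [← hp] at h41
  have e3 : Real.exp (-((t : ℝ) / 1099511627776)) ≤ (p : ℝ) / 2 ^ 40 := by
    rcases le_total t 1099511627776 with h | h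
    · refine (exp_neg_quad (by positivity)).trans ?_
      rw [Nat.cast_add, Nat.cast_pow, Nat.cast_sub h] at h41
      have : (1 : ℝ) - (t : ℝ) / 1099511627776 + ((t : ℝ) / 1099511627776) ^ 2 / 2 =
          ((((1099511627776 : ℕ) : ℝ) - t) ^ 2 + ((1208925819614629174706176 : ℕ) : ℝ)) /
            2 ^ 41 / 2 ^ 40 := by
        push_cast
        ring
      rw [this]
      exact div_le_div_of_nonneg_right h41 (by positivity)
    · have hS : (1 : ℝ) ≤ (t : ℝ) / 1099511627776 := by
        rw [le_div_iff₀ (by norm_num)]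
        have : ((1099511627776 : ℕ) : ℝ) ≤ t := by exact_mod_cast h
        push_cast at this
        linarith
      have h1 : Real.exp (-((t : ℝ) / 1099511627776)) ≤ 1 / 2 := by
        have h2 := exp_neg_quad (t := 1) (by norm_num)
        have h3 : Real.exp (-((t : ℝ) / 1099511627776)) ≤ Real.exp (-1) :=
          Real.exp_le_exp.2 (by linarith)
        linarith
      refine h1.trans ?_
      rw [le_div_iff₀ (by positivity)]
      refine le_trans ?_ h41
      rw [Nat.sub_eq_zero_of_le h]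
      norm_num
  rw [e1]
  refine le_trans (pow_le_pow_left₀ (Real.exp_pos _).le (e2.trans e3) 256) ?_
  have := up256 (p := p) (y := (p : ℝ) / 2 ^ 40) (by positivity) le_rfl
  rw [c40] at this
  rw [c40]
  exact this

theorem epF_spec (p : ℕ) : Real.exp ((p : ℝ) / 1099511627776) ≤
    (epF p : ℝ) / 1099511627776 := by
  rw [epF_def]
  show _ ≤ ((bi (Nat.blt (p >>> 8 + 1) 1099511627776)
    (((((1208925819614629174706176 / (1099511627776 - (p >>> 8 + 1))) + 1) ^ 256) >>> 10200) + 1)
      (ep p) : ℕ) : ℝ) / 1099511627776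
  rw [bi_eq]
  set t := p >>> 8 + 1 with ht
  have ht1 : (p : ℝ) / 2 ^ 8 ≤ t := by rw [ht]; exact le_shr p 8
  rcases Bool.eq_false_or_eq_true (Nat.blt t 1099511627776) with h | h
  · rw [h, cond_true]
    have hlt : t < 1099511627776 := by
      have h2 : Nat.ble (t + 1) 1099511627776 = true := h
      exact Nat.le_of_ble_eq_true h2
    have e1 : Real.exp ((p : ℝ) / 1099511627776) =
        Real.exp ((p : ℝ) / 281474976710656) ^ 256 := by
      rw [← pow256]
      congr 1
      ring
    have e2 : Real.exp ((p : ℝ) / 281474976710656) ≤ Real.exp ((t : ℝ) / 1099511627776) := by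
      apply Real.exp_le_exp.2
      rw [div_le_div_iff₀ (by norm_num) (by norm_num)]
      norm_num at ht1
      rw [div_le_iff₀ (by norm_num)] at ht1
      linarith
    have hlt' : (t : ℝ) < 1099511627776 := by exact_mod_cast hlt
    have e3 : Real.exp ((t : ℝ) / 1099511627776) ≤
        ((1208925819614629174706176 / (1099511627776 - t) + 1 : ℕ) : ℝ) / 2 ^ 40 := by
      have h1 : (t : ℝ) / 1099511627776 < 1 := by
        rw [div_lt_one (by norm_num)]
        exact hlt'
      refine (Real.exp_bound_div_one_sub_of_interval (by positivity) h1).trans ?_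
      have h2 := real_le_div 1208925819614629174706176 (1099511627776 - t) (by omega)
      rw [Nat.cast_sub hlt.le] at h2
      have h3 : (1 : ℝ) / (1 - (t : ℝ) / 1099511627776) =
          ((1208925819614629174706176 : ℕ) : ℝ) / (((1099511627776 : ℕ) : ℝ) - t) / 2 ^ 40 := by
        have h4 : (1099511627776 : ℝ) - t ≠ 0 := by linarith
        push_cast
        field_simp
        ring
      rw [h3]
      exact div_le_div_of_nonneg_right h2 (by positivity)
    rw [e1]
    refine le_trans (pow_le_pow_left₀ (Real.exp_pos _).le (e2.trans e3) 256) ?_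
    have := up256 (p := 1208925819614629174706176 / (1099511627776 - t) + 1)
      (y := ((1208925819614629174706176 / (1099511627776 - t) + 1 : ℕ) : ℝ) / 2 ^ 40)
      (by positivity) le_rfl
    rw [c40] at this
    rw [c40]
    exact this
  · rw [h, cond_false]
    have := ep_spec p
    rwa [c40] at this

theorem nX_ge {N Na Nb P M : ℕ} {x : ℝ} (hNa : Na ≤ N) (hNb : N ≤ Nb)
    (hx : x ≤ ((M : ℝ) - P) / 4722366482869645213696) :
    Real.exp (N * x) ≤ (nX Na Nb P M : ℝ) / 1099511627776 := by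
  have hNar : (Na : ℝ) ≤ N := by exact_mod_cast hNa
  have hNbr : (N : ℝ) ≤ Nb := by exact_mod_cast hNb
  have hN0 : (0 : ℝ) ≤ N := Nat.cast_nonneg _
  have hx1 := mul_le_mul_of_nonneg_left hx hN0
  rw [nX_def, bi_eq]
  rcases le_or_gt M P with h | h
  · rw [Nat.ble_eq_true_of_le h, cond_true]
    refine le_trans (Real.exp_le_exp.2 (hx1.trans ?_)) (emF_spec _)
    have h1 := shr_le (Na * (P - M)) 32
    rw [Nat.cast_mul, Nat.cast_sub h] at h1
    have h3 : ((M : ℝ) - P) / 4722366482869645213696 ≤ 0 := by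
      apply div_nonpos_of_nonpos_of_nonneg _ (by norm_num)
      have : (M : ℝ) ≤ P := by exact_mod_cast h
      linarith
    refine (mul_le_mul_of_nonpos_right hNar h3).trans ?_
    have h5 := div_le_div_of_nonneg_right h1 (show (0 : ℝ) ≤ 1099511627776 by norm_num)
    have h6 : (Na : ℝ) * (((M : ℝ) - P) / 4722366482869645213696) =
        -(Na * ((P : ℝ) - M) / 2 ^ 32 / 1099511627776) := by
      norm_num
      ring
    rw [h6]
    linarith
  · have hb : Nat.ble M P = false := by
      rw [Bool.eq_false_iff, ne_eq, Nat.ble_eq]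
      omega
    rw [hb, cond_false]
    refine le_trans (Real.exp_le_exp.2 (hx1.trans ?_)) (epF_spec _)
    have h1 := le_shr (Nb * (M - P)) 32
    rw [Nat.cast_mul, Nat.cast_sub h.le] at h1
    have h3 : 0 ≤ ((M : ℝ) - P) / 4722366482869645213696 := by
      apply div_nonneg _ (by norm_num)
      have : (P : ℝ) < M := by exact_mod_cast h
      linarith
    refine (mul_le_mul_of_nonneg_right hNbr h3).trans ?_
    have h5 := div_le_div_of_nonneg_right h1 (show (0 : ℝ) ≤ 1099511627776 by norm_num)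
    refine le_trans (le_of_eq ?_) h5
    norm_num
    ring

theorem nV_ge {N Na Nb r0 r1 mx H : ℕ} {r f : ℝ} (hNa : Na ≤ N) (hNb : N ≤ Nb)
    (hr0 : (r0 : ℝ) / 4096 ≤ r) (hr1 : r ≤ (r1 : ℝ) / 4096)
    (hf : ((1208925819614629174706176 : ℝ) - (mx : ℝ)) / 1152921504606846976 ≤ f) :
    Real.exp (N * (-(fr H + r * f))) ≤ (nV Na Nb r0 r1 mx H : ℝ) / 1099511627776 := by
  have hrn : 0 ≤ r := le_trans (by positivity) hr0
  have e1 := mul_le_mul_of_nonneg_left hf hrn
  rw [nV_def, bi_eq]
  rcases le_or_gt mx 1208925819614629174706176 with h | h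
  · rw [Nat.ble_eq_true_of_le h, cond_true]
    refine nX_ge hNa hNb ?_
    have h2 : (0 : ℝ) ≤ ((1208925819614629174706176 : ℝ) - (mx : ℝ)) / 1152921504606846976 := by
      apply div_nonneg _ (by norm_num)
      have : (mx : ℝ) ≤ 1208925819614629174706176 := by exact_mod_cast h
      linarith
    have h3 := mul_le_mul_of_nonneg_right hr0 h2
    rw [Nat.cast_add, Nat.cast_mul, Nat.cast_mul, Nat.cast_sub h]
    rw [le_div_iff₀ (by norm_num)]
    have h4 := h3.trans e1
    have h5 : (r0 : ℝ) / 4096 * (((1208925819614629174706176 : ℝ) - (mx : ℝ)) /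
        1152921504606846976) * 4722366482869645213696 =
        r0 * ((1208925819614629174706176 : ℝ) - mx) := by ring
    have h6 := mul_le_mul_of_nonneg_right h4 (show (0 : ℝ) ≤ 4722366482869645213696 by norm_num)
    rw [h5] at h6
    have h7 : -(fr H + r * f) * 4722366482869645213696 =
        -(((H : ℝ) - 8388608) * 4503599627370496) - r * f * 4722366482869645213696 := by
      unfold fr
      ring
    rw [h7]
    push_cast
    linarith
  · have hb : Nat.ble mx 1208925819614629174706176 = false := by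
      rw [Bool.eq_false_iff, ne_eq, Nat.ble_eq]
      omega
    rw [hb, cond_false]
    refine nX_ge hNa hNb ?_
    have h2 : ((1208925819614629174706176 : ℝ) - (mx : ℝ)) / 1152921504606846976 ≤ 0 := by
      apply div_nonpos_of_nonpos_of_nonneg _ (by norm_num)
      have : (1208925819614629174706176 : ℝ) < mx := by exact_mod_cast h
      linarith
    have h3 := mul_le_mul_of_nonpos_right hr1 h2
    rw [Nat.cast_add, Nat.cast_mul, Nat.cast_mul, Nat.cast_sub h.le]
    rw [le_div_iff₀ (by norm_num)]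
    have h4 := h3.trans e1
    have h5 : (r1 : ℝ) / 4096 * (((1208925819614629174706176 : ℝ) - (mx : ℝ)) /
        1152921504606846976) * 4722366482869645213696 =
        r1 * ((1208925819614629174706176 : ℝ) - mx) := by ring
    have h6 := mul_le_mul_of_nonneg_right h4 (show (0 : ℝ) ≤ 4722366482869645213696 by norm_num)
    rw [h5] at h6
    have h7 : -(fr H + r * f) * 4722366482869645213696 =
        -(((H : ℝ) - 8388608) * 4503599627370496) - r * f * 4722366482869645213696 := by
      unfold fr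
      ring
    rw [h7]
    push_cast
    linarith

theorem ngB_ge {G D g : ℕ} (hG : G < 16777216) (hD : D < 16777216) (hg : g ≤ 256) :
    (1208925819614629174706176 : ℝ) -
      1152921504606846976 * (fr G * Real.cos (g / 64) + fr D * Real.sin (g / 64)) ≤
      (ngB (kA (tc g) (ts g)) G D (tc g) (ts g) : ℝ) := by
  refine (ngA_ge hG hD hg).trans ?_
  have h : ngA G D (tc g) (ts g) ≤ ngB (kA (tc g) (ts g)) G D (tc g) (ts g) := by
    rw [ngA_def, ngB_def, kA_def]
    omega
  exact_mod_cast h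

theorem gmN_ge (a b : ℕ) : (a : ℝ) * b ≤ (gmN a b : ℝ) ^ 2 := by
  have h1 : gmN a b = nst (a * b) (nst (a * b) ((a + b) / 2 + 1)) := rfl
  have h2 := sqrt_le_nst (a * b) (nst (a * b) ((a + b) / 2 + 1)) (nst_pos _ _)
  rw [← h1] at h2
  have h3 : (0 : ℝ) ≤ ((a * b : ℕ) : ℝ) := Nat.cast_nonneg _
  have h4 := pow_le_pow_left₀ (Real.sqrt_nonneg _) h2 2
  rw [Real.sq_sqrt h3] at h4
  push_cast at h4
  exact h4

/-- the value of a cell, `x = zz / (256 Q²)` -/
theorem cN_ge {Q s zz a b : ℕ} {y : ℝ} (h : okN Q zz = true)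
    (hy : y ≤ 2 * (zz : ℝ) / (512 * Q ^ 2 - zz)) :
    (s : ℝ) * (((a : ℝ) + b + 2 * gmN a b) * (1 + 2 * y / 3)) ≤ (cN Q s zz a b : ℝ) := by
  have h1 : 3 * zz < 1536 * (Q * Q) := by
    have h2 : Nat.ble (3 * zz + 1) (1536 * (Q * Q)) = true := h
    exact Nat.le_of_ble_eq_true h2
  rw [cN_def, Nat.cast_mul]
  refine mul_le_mul_of_nonneg_left ?_ (Nat.cast_nonneg _)
  refine le_trans ?_ (real_le_div _ _ (by omega))
  have h3 : (3 * zz : ℝ) < 1536 * Q ^ 2 := by
    have : ((3 * zz : ℕ) : ℝ) < ((1536 * (Q * Q) : ℕ) : ℝ) := by exact_mod_cast h1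
    push_cast at this
    linarith
  have h4 : (((1536 * (Q * Q)) - 3 * zz : ℕ) : ℝ) = 3 * (512 * Q ^ 2 - zz) := by
    rw [Nat.cast_sub h1.le]
    push_cast
    ring
  rw [h4]
  have h5 : (0 : ℝ) < 512 * Q ^ 2 - zz := by linarith
  rw [Nat.cast_mul]
  refine le_trans ?_ (le_of_eq (mul_div_assoc _ _ _).symm)
  have h6 : 1 + 2 * y / 3 ≤ ((1536 * (Q * Q) + zz : ℕ) : ℝ) / (3 * (512 * (Q : ℝ) ^ 2 - zz)) := by
    have e : ((1536 * (Q * Q) + zz : ℕ) : ℝ) / (3 * (512 * (Q : ℝ) ^ 2 - zz)) =
        1 + 2 * (2 * (zz : ℝ) / (512 * Q ^ 2 - zz)) / 3 := by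
      have h8 : (512 : ℝ) * Q ^ 2 - zz ≠ 0 := h5.ne'
      push_cast
      rw [div_eq_iff (mul_ne_zero three_ne_zero h8)]
      have h9 : (1 + 2 * (2 * (zz : ℝ) / (512 * Q ^ 2 - zz)) / 3) * (3 * (512 * (Q : ℝ) ^ 2 - zz)) =
          3 * (512 * (Q : ℝ) ^ 2 - zz) + 4 * zz * ((512 * Q ^ 2 - zz) / (512 * Q ^ 2 - zz)) := by
        ring
      rw [h9, div_self h8]
      ring
    rw [e]
    linarith
  have h7 : ((a + b + 2 * gmN a b : ℕ) : ℝ) = (a : ℝ) + b + 2 * gmN a b := by push_cast; ring
  rw [h7]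
  have h8 : (0 : ℝ) ≤ (a : ℝ) + b + 2 * gmN a b := by
    rw [← h7]
    exact Nat.cast_nonneg _
  exact mul_le_mul_of_nonneg_left h6 h8

/-- `e^z - 1 ≤ 2z/(2-z)` -/
theorem exp_sub_one_le {z : ℝ} (h0 : 0 ≤ z) (h2 : z < 2) : Real.exp z - 1 ≤ 2 * z / (2 - z) := by
  have hm : MonotoneOn (fun x : ℝ => 2 + x - (2 - x) * Real.exp x) (Set.Icc 0 2) := by
    apply monotoneOn_of_hasDerivWithinAt_nonneg (convex_Icc 0 2)
      (f' := fun x => 1 - (-1 * Real.exp x + (2 - x) * Real.exp x))
    · fun_prop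
    · intro x _
      have h3 : HasDerivAt (fun x : ℝ => 2 + x) 1 x := (hasDerivAt_id x).const_add 2
      have h4 : HasDerivAt (fun x : ℝ => 2 - x) (-1) x := by
        simpa using (hasDerivAt_id x).const_sub 2
      exact (h3.sub (h4.mul (Real.hasDerivAt_exp x))).hasDerivWithinAt
    · intro x hx
      rw [interior_Icc] at hx
      have h5 : (1 - x) * Real.exp x ≤ 1 := by
        have h6 := Real.one_sub_le_exp_neg x
        have h7 := mul_le_mul_of_nonneg_right h6 (Real.exp_pos x).le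
        rwa [← Real.exp_add, neg_add_cancel, Real.exp_zero] at h7
      linarith
  have h := hm (Set.left_mem_Icc.2 (by norm_num)) ⟨h0, h2.le⟩ h0
  simp only [] at h
  rw [Real.exp_zero] at h
  rw [le_div_iff₀ (by linarith)]
  linarith

end Pool.Agent.Lib.MP_af3a4a_an.P1.CHK.TAIL
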