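import Pool.Agent.Lib.MP_af3a4a_an.P1.CHK.TAIL.Arc

/-!
# Tails, part 5: soundness of `tailT` (council 2, helper62)
-/

set_option autoImplicit false

namespace Pool.Agent.Lib.MP_af3a4a_an.P1.CHK.TAIL

open MeasureTheory intervalIntegral
open Pool.Agent.Lib.MP_af3a4a_an.SV (uu av)
open Pool.Agent.Lib.MP_af3a4a_an.P1.H80
open Pool.Agent.Lib.MP_af3a4a_an.P1.CHK.H80
open Pool.Agent.Lib.MP_af3a4a_an.P1.CHK.Arith
open Pool.Agent.Lib.MP_af3a4a_an.P1.CHK.Curve (bi bi_eq bi_true bi_false uE uE_ge mr c40)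
open Pool.Agent.Lib.MP_af3a4a_an.P1.CHK.BOX (tc ts trig_tab)

theorem bi_and (a b : Bool) : bi a b false = true ↔ a = true ∧ b = true := by
  cases a <;> cases b <;> simp [bi]

/-- the direction -/
noncomputable def dr (k : ℕ) : ℂ := Complex.exp (-(((k : ℝ) / 64 : ℝ) : ℂ) * Complex.I)

theorem dr_norm (k : ℕ) : ‖dr k‖ = 1 := by
  unfold dr
  rw [neg_mul, ← Complex.norm_exp_ofReal_mul_I (-((k : ℝ) / 64))]
  congr 2
  push_cast
  ring

/-- the value of a cell -/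
theorem cell_case {q : ℝ → ℂ} (hq : Continuous q) {Q s j j0 je E0 E1 E2 : ℕ} (hQ : 0 < Q)
    (hj : j = j0 ∨ 2 * j = 2 * j0 + s) (hs : 1 ≤ s) (hje : j0 + s ≤ je ∨ 2 * je = 2 * j0 + s)
    (hL : ‖∫ x in ((2 * j0 : ℕ) : ℝ) / (2 * Q)..((2 * j0 + s : ℕ) : ℝ) / (2 * Q), q x‖ *
      (4 * Q * 1099511627776) ≤ s * ((E0 : ℝ) + E1))
    (hR : ‖∫ x in ((2 * j0 + s : ℕ) : ℝ) / (2 * Q)..((2 * j0 + 2 * s : ℕ) : ℝ) / (2 * Q), q x‖ *
      (4 * Q * 1099511627776) ≤ s * ((E1 : ℝ) + E2)) :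
    ‖∫ x in (j : ℝ) / Q..((bi (Nat.ble (j0 + s) je) (j0 + s) je : ℕ) : ℝ) / Q, q x‖ *
      (4 * Q * 1099511627776) ≤ (cV s j j0 je E0 E1 E2 : ℝ) := by
  have hQ' : (0 : ℝ) < Q := Nat.cast_pos.2 hQ
  have p1 : ((2 * j0 : ℕ) : ℝ) / (2 * Q) = (j0 : ℝ) / Q := by
    push_cast
    field_simp
  have p3 : ((2 * j0 + 2 * s : ℕ) : ℝ) / (2 * Q) = ((j0 + s : ℕ) : ℝ) / Q := by
    push_cast
    field_simp
  have p2 : ∀ i : ℕ, 2 * i = 2 * j0 + s → ((2 * j0 + s : ℕ) : ℝ) / (2 * Q) = (i : ℝ) / Q := by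
    intro i hi
    rw [← hi]
    push_cast
    field_simp
  rw [p1] at hL
  rw [p3] at hR
  rw [cV_def, bi_eq, bi_eq, bi_eq]
  have hsum : ∀ a b c : ℝ, ‖∫ x in a..c, q x‖ ≤ ‖∫ x in a..b, q x‖ + ‖∫ x in b..c, q x‖ := by
    intro a b c
    rw [← intervalIntegral.integral_add_adjacent_intervals (hq.intervalIntegrable a b)
      (hq.intervalIntegrable b c)]
    exact norm_add_le _ _
  have hpos : (0 : ℝ) ≤ 4 * Q * 1099511627776 := by positivity
  by_cases ha : j = j0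
  · have hb1 : Nat.beq j j0 = true := by rw [Nat.beq_eq]; exact ha
    rw [hb1, cond_true]
    by_cases hb : j0 + s ≤ je
    · rw [Nat.ble_eq_true_of_le hb, cond_true, cond_true, ha]
      have h1 := hsum ((j0 : ℝ) / Q) (((2 * j0 + s : ℕ) : ℝ) / (2 * Q)) (((j0 + s : ℕ) : ℝ) / Q)
      have h2 := mul_le_mul_of_nonneg_right h1 hpos
      refine h2.trans ?_
      rw [add_mul]
      refine (add_le_add hL hR).trans (le_of_eq ?_)
      push_cast
      ring
    · have hb2 : Nat.ble (j0 + s) je = false := by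
        rw [Bool.eq_false_iff, ne_eq, Nat.ble_eq]; exact hb
      rw [hb2, cond_false, cond_false, ha]
      have hc : 2 * je = 2 * j0 + s := by
        rcases hje with h | h
        · exact absurd h hb
        · exact h
      rw [p2 je hc] at hL
      refine hL.trans (le_of_eq ?_)
      push_cast
      ring
  · have hb1 : Nat.beq j j0 = false := by
      rw [Bool.eq_false_iff, ne_eq, Nat.beq_eq]; exact ha
    have hj2 : 2 * j = 2 * j0 + s := by
      rcases hj with h | h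
      · exact absurd h ha
      · exact h
    rw [hb1, cond_false]
    by_cases hb : j0 + s ≤ je
    · rw [Nat.ble_eq_true_of_le hb, cond_true, cond_true]
      rw [p2 j hj2] at hR
      refine hR.trans (le_of_eq ?_)
      push_cast
      ring
    · have hb2 : Nat.ble (j0 + s) je = false := by
        rw [Bool.eq_false_iff, ne_eq, Nat.ble_eq]; exact hb
      rw [hb2, cond_false, cond_false]
      have hc : 2 * je = 2 * j0 + s := by
        rcases hje with h | h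
        · exact absurd h hb
        · exact h
      have : j = je := by omega
      rw [this, intervalIntegral.integral_same]
      simp

/-- the hypotheses -/
structure TCtx (N Na Nb Q k r0 r1 g0 g1 lp ln : ℕ) (w : Fin N → ℂ) (R r g : ℝ) : Prop where
  na1 : 1 ≤ Na
  na : Na ≤ N
  nb : N ≤ Nb
  q : 0 < Q
  hw : ∀ i, 1 ≤ ‖w i‖
  ht : ∑ i, ‖w i - (R : ℂ)‖ ≤ N
  r0 : (r0 : ℝ) / 4096 ≤ r
  r1 : r ≤ (r1 : ℝ) / 4096
  g01 : g0 ≤ g1
  g2 : g1 ≤ 256
  gd : g1 - g0 ≤ 100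
  hg0 : (g0 : ℝ) / 64 ≤ g
  hg1 : g ≤ (g1 : ℝ) / 64
  re : (av (uu w)).re = r * Real.cos g
  im : (av (uu w)).im = r * Real.sin g
  ml : |mr lp ln| ≤ 1
  lo : mr lp ln ≤ (av (ru w (dr k))).re

section

variable {N Na Nb Q k r0 r1 g0 g1 lp ln : ℕ} {w : Fin N → ℂ} {R r g : ℝ}

theorem TCtx.hN (H : TCtx N Na Nb Q k r0 r1 g0 g1 lp ln w R r g) : 1 ≤ N := H.na1.trans H.na

theorem TCtx.hu (H : TCtx N Na Nb Q k r0 r1 g0 g1 lp ln w R r g) (i : Fin N) :
    ‖ru w (dr k) i‖ ≤ 1 := by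
  show ‖dr k * uu w i‖ ≤ 1
  rw [norm_mul, dr_norm, one_mul]
  show ‖(w i)⁻¹‖ ≤ 1
  rw [norm_inv]
  exact inv_le_one_of_one_le₀ (H.hw i)

/-- one exponential -/
theorem TCtx.eE (H : TCtx N Na Nb Q k r0 r1 g0 g1 lp ln w R r g) (F h : ℕ) :
    Real.exp (-(N * (fr h + (fr (fG F) * (av (uu w)).re + fr (fD F) * (av (uu w)).im)))) ≤
      (eE Na Nb
        (eV1 r0 r1 (mxA (ngA (fG F) (fD F) (tc g0) (ts g0)) (ngA (fG F) (fD F) (tc g1) (ts g1))
          (tc (g1 - g0))))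
        (eV2 r0 r1 (mxA (ngA (fG F) (fD F) (tc g0) (ts g0)) (ngA (fG F) (fD F) (tc g1) (ts g1))
          (tc (g1 - g0)))) h : ℝ) / 1099511627776 := by
  have e : fr (fG F) * (av (uu w)).re + fr (fD F) * (av (uu w)).im =
      r * (fr (fG F) * Real.cos g + fr (fD F) * Real.sin g) := by
    rw [H.re, H.im]
    ring
  rw [e]
  have hG : fG F < 16777216 := field_lt _
  have hD : fD F < 16777216 := field_lt _
  exact eE_ge H.na H.nb H.r0 H.r1 (mxA_ge H.g01 H.gd H.hg0 H.hg1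
    (ngA_ge hG hD (by have := H.g01; have := H.g2; omega)) (ngA_ge hG hD H.g2))

/-- a cell with the dual -/
theorem TCtx.cD (H : TCtx N Na Nb Q k r0 r1 g0 g1 lp ln w R r g) {F : ℕ} (hP : PairE Q k R F)
    {j je : ℕ} (hj : j = eJ F ∨ 2 * j = 2 * eJ F + eS F)
    (hje : eJ F + eS F ≤ je ∨ 2 * je = 2 * eJ F + eS F) :
    ‖∫ x in (j : ℝ) / Q..((bi (Nat.ble (eJ F + eS F) je) (eJ F + eS F) je : ℕ) : ℝ) / Q,
      qq (ru w (dr k)) x‖ * (4 * Q * 1099511627776) ≤
      (cD Na Nb r0 r1 (tc g0) (ts g0) (tc g1) (ts g1) (tc (g1 - g0)) F j je : ℝ) := by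
  have hQ' : (0 : ℝ) < Q := Nat.cast_pos.2 H.q
  obtain ⟨hPr, hs⟩ := hP
  have hs' : (1 : ℝ) ≤ eS F := by exact_mod_cast hs
  have hx : (eJ F : ℝ) / Q < ((eJ F + eS F : ℕ) : ℝ) / Q := by
    apply div_lt_div_of_pos_right _ hQ'
    push_cast
    linarith
  have p1 : ((2 * eJ F : ℕ) : ℝ) / (2 * Q) = (eJ F : ℝ) / Q := by
    push_cast
    field_simp
  have p3 : ((2 * eJ F + 2 * eS F : ℕ) : ℝ) / (2 * Q) = ((eJ F + eS F : ℕ) : ℝ) / Q := by
    push_cast
    field_simp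
  have p2 : ((2 * eJ F + eS F : ℕ) : ℝ) / (2 * Q) =
      ((eJ F : ℝ) / Q + ((eJ F + eS F : ℕ) : ℝ) / Q) / 2 := by
    push_cast
    field_simp
    ring
  have hlen : ((eJ F + eS F : ℕ) : ℝ) / Q - (eJ F : ℝ) / Q = (eS F : ℝ) / Q := by
    push_cast
    field_simp
    ring
  refine cell_case (qq_cont _) H.q hj hs hje ?_ ?_
  · rw [p1, p2]
    have h := hPr.left H.hN H.hw H.ht hx (H.eE F (f0 F)) (H.eE F (fM F))
    have h2 := mul_le_mul_of_nonneg_right h (show (0 : ℝ) ≤ 4 * Q * 1099511627776 by positivity)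
    refine h2.trans (le_of_eq ?_)
    rw [hlen]
    field_simp
  · rw [p3, p2]
    have h := hPr.right H.hN H.hw H.ht hx (H.eE F (fM F)) (H.eE F (f1 F))
    have h2 := mul_le_mul_of_nonneg_right h (show (0 : ℝ) ≤ 4 * Q * 1099511627776 by positivity)
    refine h2.trans (le_of_eq ?_)
    rw [hlen]
    field_simp

/-- a cell with the AM-GM bound -/
theorem TCtx.cU (H : TCtx N Na Nb Q k r0 r1 g0 g1 lp ln w R r g) {F : ℕ} (hs : 1 ≤ eS F)
    {j je : ℕ} (hj : j = eJ F ∨ 2 * j = 2 * eJ F + eS F)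
    (hje : eJ F + eS F ≤ je ∨ 2 * je = 2 * eJ F + eS F) :
    ‖∫ x in (j : ℝ) / Q..((bi (Nat.ble (eJ F + eS F) je) (eJ F + eS F) je : ℕ) : ℝ) / Q,
      qq (ru w (dr k)) x‖ * (4 * Q * 1099511627776) ≤ (cU Na Nb Q lp ln F j je : ℝ) := by
  have hQ' : (0 : ℝ) < Q := Nat.cast_pos.2 H.q
  have hs' : (1 : ℝ) ≤ eS F := by exact_mod_cast hs
  have h2Q : 0 < 2 * Q := by have := H.q; omega
  have c2Q : ((2 * Q : ℕ) : ℝ) = 2 * Q := by push_cast; ring
  have hE : ∀ i : ℕ, Curve.EN N (av (ru w (dr k))).re ((i : ℝ) / (2 * Q)) ≤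
      (uE Na Nb (2 * Q) lp ln i : ℝ) / 1099511627776 := by
    intro i
    have := uE_ge (j := i) H.na1 H.na H.nb h2Q H.lo H.ml
    rwa [c2Q] at this
  rw [cU_def]
  refine cell_case (qq_cont _) H.q hj hs hje ?_ ?_
  · have hlt : ((2 * eJ F : ℕ) : ℝ) / (2 * Q) < ((2 * eJ F + eS F : ℕ) : ℝ) / (2 * Q) := by
      apply div_lt_div_of_pos_right _ (by positivity)
      push_cast
      linarith
    have h := am_int H.hN H.hu hlt (hE _) (hE _)
    have h2 := mul_le_mul_of_nonneg_right h (show (0 : ℝ) ≤ 4 * Q * 1099511627776 by positivity)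
    refine h2.trans (le_of_eq ?_)
    push_cast
    field_simp
    ring
  · have hlt : ((2 * eJ F + eS F : ℕ) : ℝ) / (2 * Q) <
        ((2 * eJ F + 2 * eS F : ℕ) : ℝ) / (2 * Q) := by
      apply div_lt_div_of_pos_right _ (by positivity)
      push_cast
      linarith
    have h := am_int H.hN H.hu hlt (hE _) (hE _)
    have h2 := mul_le_mul_of_nonneg_right h (show (0 : ℝ) ≤ 4 * Q * 1099511627776 by positivity)
    refine h2.trans (le_of_eq ?_)
    push_cast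
    field_simp
    ring

theorem walk_succ {c0 s0 c1 s1 cd je K F j acc mask : ℕ}
    (h : 0 < walk Na Nb Q r0 r1 c0 s0 c1 s1 cd lp ln je (K + 1) F j acc mask) :
    (j = eJ F ∨ 2 * j = 2 * eJ F + eS F) ∧ (eJ F + eS F ≤ je ∨ 2 * je = 2 * eJ F + eS F) ∧
    ∃ V : ℕ, (V = cU Na Nb Q lp ln F j je ∨ V = cD Na Nb r0 r1 c0 s0 c1 s1 cd F j je) ∧
      walk Na Nb Q r0 r1 c0 s0 c1 s1 cd lp ln je (K + 1) F j acc mask =
      walk Na Nb Q r0 r1 c0 s0 c1 s1 cd lp ln je K (F >>> 144)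
        (bi (Nat.ble (eJ F + eS F) je) (eJ F + eS F) je) (acc + V) (mask >>> 1) := by
  have h1 : walk Na Nb Q r0 r1 c0 s0 c1 s1 cd lp ln je (K + 1) F j acc mask =
      bi (bi (bi (Nat.beq j (eJ F)) true (Nat.beq (2 * j) (2 * eJ F + eS F)))
        (bi (Nat.ble (eJ F + eS F) je) true (Nat.beq (2 * je) (2 * eJ F + eS F))) false)
      (walk Na Nb Q r0 r1 c0 s0 c1 s1 cd lp ln je K (F >>> 144)
        (bi (Nat.ble (eJ F + eS F) je) (eJ F + eS F) je)
        (acc + bi (Nat.beq (mask % 2) 1) (cU Na Nb Q lp ln F j je)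
          (cD Na Nb r0 r1 c0 s0 c1 s1 cd F j je)) (mask >>> 1)) 0 := rfl
  rcases Bool.eq_false_or_eq_true (bi (bi (Nat.beq j (eJ F)) true
      (Nat.beq (2 * j) (2 * eJ F + eS F)))
    (bi (Nat.ble (eJ F + eS F) je) true (Nat.beq (2 * je) (2 * eJ F + eS F))) false) with hc | hc
  · have hc' := hc
    rw [bi_and] at hc'
    obtain ⟨ha, hb⟩ := hc'
    refine ⟨?_, ?_, bi (Nat.beq (mask % 2) 1) (cU Na Nb Q lp ln F j je)
          (cD Na Nb r0 r1 c0 s0 c1 s1 cd F j je), ?_, ?_⟩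
    · rcases Bool.eq_false_or_eq_true (Nat.beq j (eJ F)) with h2 | h2
      · exact Or.inl (Nat.eq_of_beq_eq_true h2)
      · rw [h2, bi_false] at ha
        exact Or.inr (Nat.eq_of_beq_eq_true ha)
    · rcases Bool.eq_false_or_eq_true (Nat.ble (eJ F + eS F) je) with h2 | h2
      · exact Or.inl (Nat.le_of_ble_eq_true h2)
      · rw [h2, bi_false] at hb
        exact Or.inr (Nat.eq_of_beq_eq_true hb)
    · rcases Bool.eq_false_or_eq_true (Nat.beq (mask % 2) 1) with h2 | h2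
      · rw [h2, bi_true]
        exact Or.inl rfl
      · rw [h2, bi_false]
        exact Or.inr rfl
    · rw [h1, hc, bi_true]
  · rw [h1, hc, bi_false] at h
    exact absurd h (Nat.lt_irrefl 0)

theorem walk_ok (H : TCtx N Na Nb Q k r0 r1 g0 g1 lp ln w R r g) {je : ℕ} :
    ∀ K F j acc mask : ℕ, (∀ i, i < K → PairE Q k R (F >>> (144 * i))) →
    0 < walk Na Nb Q r0 r1 (tc g0) (ts g0) (tc g1) (ts g1) (tc (g1 - g0)) lp ln je K F j acc
      mask →
    (acc : ℝ) + ‖∫ x in (j : ℝ) / Q..(je : ℝ) / Q, qq (ru w (dr k)) x‖ *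
      (4 * Q * 1099511627776) ≤
      (walk Na Nb Q r0 r1 (tc g0) (ts g0) (tc g1) (ts g1) (tc (g1 - g0)) lp ln je K F j acc
        mask : ℝ) := by
  intro K
  induction K with
  | zero =>
    intro F j acc mask _ h
    have h1 : walk Na Nb Q r0 r1 (tc g0) (ts g0) (tc g1) (ts g1) (tc (g1 - g0)) lp ln je 0 F j
      acc mask = bi (Nat.beq j je) (acc + 1) 0 := rfl
    rw [h1] at h ⊢
    rcases Bool.eq_false_or_eq_true (Nat.beq j je) with h2 | h2
    · have h3 := Nat.eq_of_beq_eq_true h2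
      rw [h2, bi_true, h3, intervalIntegral.integral_same]
      push_cast
      simp
    · rw [h2, bi_false] at h
      exact absurd h (Nat.lt_irrefl 0)
  | succ K ih =>
    intro F j acc mask hP h
    obtain ⟨hj, hje, V, hV, he⟩ := walk_succ h
    rw [he] at h ⊢
    set j' := bi (Nat.ble (eJ F + eS F) je) (eJ F + eS F) je with hj'
    have hP0 := hP 0 (Nat.succ_pos K)
    rw [Nat.mul_zero, Nat.shiftRight_zero] at hP0
    have hcell : ‖∫ x in (j : ℝ) / Q..(j' : ℝ) / Q, qq (ru w (dr k)) x‖ *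
        (4 * Q * 1099511627776) ≤ (V : ℝ) := by
      rcases hV with hV | hV
      · rw [hV]
        exact H.cU hP0.2 hj hje
      · rw [hV]
        exact H.cD hP0 hj hje
    have h3 := ih (F >>> 144) j' (acc + V) (mask >>> 1) (fun i hi => by
      have := hP (i + 1) (by omega)
      rw [show 144 * (i + 1) = 144 + 144 * i by ring, Nat.shiftRight_add] at this
      exact this) h
    refine le_trans ?_ h3
    have hsum : ‖∫ x in (j : ℝ) / Q..(je : ℝ) / Q, qq (ru w (dr k)) x‖ ≤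
        ‖∫ x in (j : ℝ) / Q..(j' : ℝ) / Q, qq (ru w (dr k)) x‖ +
        ‖∫ x in (j' : ℝ) / Q..(je : ℝ) / Q, qq (ru w (dr k)) x‖ := by
      rw [← intervalIntegral.integral_add_adjacent_intervals
        ((qq_cont (ru w (dr k))).intervalIntegrable ((j : ℝ) / Q) ((j' : ℝ) / Q))
        ((qq_cont (ru w (dr k))).intervalIntegrable ((j' : ℝ) / Q) ((je : ℝ) / Q))]
      exact norm_add_le _ _
    have hpos : (0 : ℝ) ≤ 4 * Q * 1099511627776 := by positivity
    have h4 := mul_le_mul_of_nonneg_right hsum hpos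
    push_cast
    linarith

/-- **soundness of `tailT`**, general form -/
theorem tailT_ctx (H : TCtx N Na Nb Q k r0 r1 g0 g1 lp ln w R r g) {F n i0 K mask js je : ℕ}
    (hP : ∀ i, i < n → PairE Q k R (F >>> (144 * i)))
    (hT : tailT Na Nb Q r0 r1 g0 g1 lp ln F n i0 K mask js je < 4294967296) :
    (N + 1) * ‖∫ x in (js : ℝ) / Q..(je : ℝ) / Q, qq (ru w (dr k)) x‖ ≤
      (tailT Na Nb Q r0 r1 g0 g1 lp ln F n i0 K mask js je : ℝ) / 2 ^ 24 := by
  have hQ' : (0 : ℝ) < Q := Nat.cast_pos.2 H.q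
  set W := bi (bi (Nat.ble (i0 + K) n) (Nat.ble (g1 - g0) 100) false)
    (walk Na Nb Q r0 r1 (tc g0) (ts g0) (tc g1) (ts g1) (tc (g1 - g0)) lp ln je K
      (F >>> (144 * i0)) js 0 mask) 0 with hW
  have h1 : tailT Na Nb Q r0 r1 g0 g1 lp ln F n i0 K mask js je =
      bi (Nat.beq W 0) 1606938044258990275541962092341162602522202993782792835301376
        ((Nb + 1) * W / (262144 * Q) + 1) := rfl
  rw [h1] at hT ⊢
  rcases Bool.eq_false_or_eq_true (Nat.beq W 0) with h2 | h2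
  · rw [h2, bi_true] at hT
    norm_num at hT
  · rw [h2, bi_false]
    have hW0 : W ≠ 0 := by
      intro h3
      rw [h3] at h2
      cases h2
    rcases Bool.eq_false_or_eq_true (bi (Nat.ble (i0 + K) n) (Nat.ble (g1 - g0) 100) false)
      with h3 | h3
    · have hK := ((bi_and _ _).1 h3).1
      have hK := Nat.le_of_ble_eq_true hK
      rw [h3, bi_true] at hW
      have h4 := walk_ok H (je := je) K (F >>> (144 * i0)) js 0 mask (fun i hi => by
        have := hP (i0 + i) (by omega)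
        rw [Nat.mul_add, Nat.shiftRight_add] at this
        exact this) (by rw [← hW]; exact Nat.pos_of_ne_zero hW0)
      rw [← hW, Nat.cast_zero, zero_add] at h4
      have h5 := real_le_div ((Nb + 1) * W) (262144 * Q) (by have := H.q; omega)
      have hNb : (N : ℝ) ≤ Nb := by exact_mod_cast H.nb
      rw [le_div_iff₀ (by positivity)]
      refine le_trans ?_ h5
      rw [le_div_iff₀ (by have := H.q; positivity)]
      push_cast
      set I := ‖∫ x in (js : ℝ) / Q..(je : ℝ) / Q, qq (ru w (dr k)) x‖ with hI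
      have hI0 : 0 ≤ I := norm_nonneg _
      calc (N + 1) * I * 2 ^ 24 * (262144 * Q) = (N + 1) * (I * (4 * Q * 1099511627776)) := by
            norm_num
            ring
        _ ≤ (N + 1) * W := mul_le_mul_of_nonneg_left h4 (by positivity)
        _ ≤ (Nb + 1) * W := mul_le_mul_of_nonneg_right (by linarith) (Nat.cast_nonneg _)
    · rw [h3, bi_false] at hW
      exact absurd hW hW0

end

/-- **soundness of `tailT`** (form for the box layer) -/
theorem tailT_sound {N Na Nb M Q k rD0 rD1 r0 r1 g0 g1 lp ln F n i0 K mask js je : ℕ}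
    {w : Fin N → ℂ} {R r g : ℝ} (hF : FamOK M Q k rD0 rD1 F n)
    (hR0 : (rD0 : ℝ) / M ≤ R) (hR1 : R ≤ rD1 / M)
    (hNa1 : 1 ≤ Na) (hNa : Na ≤ N) (hNb : N ≤ Nb)
    (hw : ∀ i, 1 ≤ ‖w i‖) (ht : ∑ i, ‖w i - (R : ℂ)‖ ≤ N)
    (hr0 : (r0 : ℝ) / 4096 ≤ r) (hr1 : r ≤ (r1 : ℝ) / 4096)
    (hg : g0 ≤ g1) (hg2 : g1 ≤ 256) (hg0 : (g0 : ℝ) / 64 ≤ g) (hg1 : g ≤ (g1 : ℝ) / 64)
    (hm : av (uu w) = (r : ℂ) * Complex.exp ((g : ℂ) * Complex.I))
    (hlo : mr lp ln ≤ (av (ru w (dr k))).re) (hlp : ln ≤ lp + 1099511627776)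
    (hT : tailT Na Nb Q r0 r1 g0 g1 lp ln F n i0 K mask js je < 4294967296) :
    (N + 1) * ‖∫ x in (js : ℝ) / Q..(je : ℝ) / Q, qq (ru w (dr k)) x‖ ≤
      (tailT Na Nb Q r0 r1 g0 g1 lp ln F n i0 K mask js je : ℝ) / 2 ^ 24 := by
  have hgd : g1 - g0 ≤ 100 := by
    by_contra hc
    have h1 : tailT Na Nb Q r0 r1 g0 g1 lp ln F n i0 K mask js je =
      (fun W => bi (Nat.beq W 0) 1606938044258990275541962092341162602522202993782792835301376
        ((Nb + 1) * W / (262144 * Q) + 1)) (bi (bi (Nat.ble (i0 + K) n)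
          (Nat.ble (g1 - g0) 100) false)
        (walk Na Nb Q r0 r1 (tc g0) (ts g0) (tc g1) (ts g1) (tc (g1 - g0)) lp ln je K
          (F >>> (144 * i0)) js 0 mask) 0) := rfl
    have h2 : Nat.ble (g1 - g0) 100 = false := by
      rw [Bool.eq_false_iff, ne_eq, Nat.ble_eq]; exact hc
    have h3 : bi (Nat.ble (i0 + K) n) (Nat.ble (g1 - g0) 100) false = false := by
      rw [h2]
      cases Nat.ble (i0 + K) n <;> rfl
    rw [h1, h3, bi_false] at hT
    have h4 : Nat.beq 0 0 = true := rfl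
    simp only [h4, bi_true] at hT
    norm_num at hT
  have hN : 1 ≤ N := hNa1.trans hNa
  have hu : ∀ i, ‖ru w (dr k) i‖ ≤ 1 := by
    intro i
    show ‖dr k * uu w i‖ ≤ 1
    rw [norm_mul, dr_norm, one_mul]
    show ‖(w i)⁻¹‖ ≤ 1
    rw [norm_inv]
    exact inv_le_one_of_one_le₀ (hw i)
  have hml : |mr lp ln| ≤ 1 := by
    rw [abs_le]
    constructor
    · have : (ln : ℝ) ≤ ((lp + 1099511627776 : ℕ) : ℝ) := by exact_mod_cast hlp
      push_cast at this
      unfold mr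
      rw [le_div_iff₀ (by norm_num)]
      linarith
    · exact hlo.trans ((Complex.re_le_norm _).trans (av_norm_le hN hu))
  have hre : (av (uu w)).re = r * Real.cos g := by
    rw [hm, Complex.re_ofReal_mul, Complex.exp_ofReal_mul_I_re]
  have him : (av (uu w)).im = r * Real.sin g := by
    rw [hm, Complex.im_ofReal_mul, Complex.exp_ofReal_mul_I_im]
  have H : TCtx N Na Nb Q k r0 r1 g0 g1 lp ln w R r g :=
    ⟨hNa1, hNa, hNb, hF.1, hw, ht, hr0, hr1, hg, hg2, hgd, hg0, hg1, hre, him, hml, hlo⟩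
  exact tailT_ctx H (fun i hi => hF.2 i hi R hR0 hR1) hT

end Pool.Agent.Lib.MP_af3a4a_an.P1.CHK.TAIL
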