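import Pool.Agent.Lib.MP_af3a4a_an.P1.CHK.H39.Interp
import Pool.Agent.Lib.MP_af3a4a_an.P1.CHK.TAIL.Geo
import Pool.Agent.Lib.MP_af3a4a_an.P1.CHK.TAIL.NExp
import Pool.Agent.Lib.MP_af3a4a_an.P1.CHK.TAIL.Tail

/-!
# Node tails, part 4: soundness of `tailN` (council 2, helper62)
-/

set_option autoImplicit false

namespace Pool.Agent.Lib.MP_af3a4a_an.P1.CHK.TAIL

open MeasureTheory intervalIntegral
open Pool.Agent.Lib.MP_af3a4a_an.SV (uu av)
open Pool.Agent.Lib.MP_af3a4a_an.P1.H80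
open Pool.Agent.Lib.MP_af3a4a_an.P1.CHK.H80
open Pool.Agent.Lib.MP_af3a4a_an.P1.CHK.H39.Interp (NDual VV)
open Pool.Agent.Lib.MP_af3a4a_an.P1.CHK.H74 (dir_eq)
open Pool.Agent.Lib.MP_af3a4a_an.P1.CHK.Arith
open Pool.Agent.Lib.MP_af3a4a_an.P1.CHK.Curve (bi bi_eq bi_true bi_false uE uE_ge mr c40)
open Pool.Agent.Lib.MP_af3a4a_an.P1.CHK.BOX (tc ts trig_tab)

/-- the meaning of a node entry -/
def NodeE (Q k : ℕ) (R : ℝ) (e : ℕ) : Prop :=
  ∃ α ρ : ℝ, 0 < ρ ∧ 32 ≤ (nK e : ℝ) * ρ ^ 2 ∧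
    NDual R ((nJ e : ℝ) / Q * Real.cos (k / 64)) ((nJ e : ℝ) / Q * Real.sin (k / 64)) α
      (fr (nG e)) (fr (nD e)) (fr (nH e)) ρ

section

variable {N Na Nb Q k r0 r1 g0 g1 lp ln : ℕ} {w : Fin N → ℂ} {R r g : ℝ}

/-- the value of a node -/
theorem TCtx.nE (H : TCtx N Na Nb Q k r0 r1 g0 g1 lp ln w R r g) (F : ℕ) :
    Real.exp (N * VV (fr (nG F)) (fr (nD F)) (fr (nH F)) (av (uu w))) ≤
      (nE Na Nb r0 r1 (kA (tc g0) (ts g0)) (tc g0) (ts g0) (kA (tc g1) (ts g1)) (tc g1) (ts g1)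
        (tc (g1 - g0)) F : ℝ) / 1099511627776 := by
  have e : VV (fr (nG F)) (fr (nD F)) (fr (nH F)) (av (uu w)) =
      -(fr (nH F) + r * (fr (nG F) * Real.cos g + fr (nD F) * Real.sin g)) := by
    unfold VV
    rw [H.re, H.im]
    ring
  rw [e, nE_def]
  have hG : nG F < 16777216 := field_lt _
  have hD : nD F < 16777216 := field_lt _
  exact nV_ge H.na H.nb H.r0 H.r1 (mxA_ge H.g01 H.gd H.hg0 H.hg1
    (ngB_ge hG hD (by have := H.g01; have := H.g2; omega)) (ngB_ge hG hD H.g2))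

/-- a cell with the duals -/
theorem TCtx.cN (H : TCtx N Na Nb Q k r0 r1 g0 g1 lp ln w R r g) {F F' a b : ℕ}
    (hP : NodeE Q k R F) (hP' : NodeE Q k R F') (hj : nJ F < nJ F')
    (hok : okN Q (zN Nb (nJ F' - nJ F) (mx2 (nK F) (nK F'))) = true)
    (ha : Real.exp (N * VV (fr (nG F)) (fr (nD F)) (fr (nH F)) (av (uu w))) ≤
      (a : ℝ) / 1099511627776)
    (hb : Real.exp (N * VV (fr (nG F')) (fr (nD F')) (fr (nH F')) (av (uu w))) ≤
      (b : ℝ) / 1099511627776) :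
    (∫ x in (nJ F : ℝ) / Q..(nJ F' : ℝ) / Q, ‖qq (ru w (dr k)) x‖) * (4 * Q * 1099511627776) ≤
      (cN Q (nJ F' - nJ F) (zN Nb (nJ F' - nJ F) (mx2 (nK F) (nK F'))) a b : ℝ) := by
  have hQ' : (0 : ℝ) < Q := Nat.cast_pos.2 H.q
  obtain ⟨α, ρ0, hρ0, hK0, hD0⟩ := hP
  obtain ⟨α', ρ1, hρ1, hK1, hD1⟩ := hP'
  obtain ⟨ρ, hρ⟩ : ∃ ρ, ρ = min ρ0 ρ1 := ⟨_, rfl⟩
  have hρp : 0 < ρ := by
    rw [hρ]
    exact lt_min hρ0 hρ1
  have hD0 := hD0.mono (ρ' := ρ) (by rw [hρ]; exact min_le_left _ _)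
  have hD1 := hD1.mono (ρ' := ρ) (by rw [hρ]; exact min_le_right _ _)
  set K := mx2 (nK F) (nK F') with hK
  have hKρ : 32 ≤ (K : ℝ) * ρ ^ 2 := by
    have k0 : (nK F : ℝ) ≤ K := by exact_mod_cast (mx2_ge (nK F) (nK F')).1
    have k1 : (nK F' : ℝ) ≤ K := by exact_mod_cast (mx2_ge (nK F) (nK F')).2
    rcases min_choice ρ0 ρ1 with h | h
    · rw [hρ, h]
      exact hK0.trans (mul_le_mul_of_nonneg_right k0 (by positivity))
    · rw [hρ, h]
      exact hK1.trans (mul_le_mul_of_nonneg_right k1 (by positivity))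
  set s := nJ F' - nJ F with hs
  have hs1 : (s : ℝ) = (nJ F' : ℝ) - nJ F := by
    rw [hs, Nat.cast_sub hj.le]
  have hx : (nJ F : ℝ) / Q ≤ (nJ F' : ℝ) / Q := by
    apply div_le_div_of_nonneg_right _ hQ'.le
    exact_mod_cast hj.le
  have hlen : (nJ F' : ℝ) / Q - (nJ F : ℝ) / Q = (s : ℝ) / Q := by
    rw [hs1]
    ring
  set zz := zN Nb s K with hzz
  have hzz1 : (zz : ℝ) = Nb * ((s : ℝ) * s * K) := by
    rw [hzz, zN_def]
    push_cast
    ring
  obtain ⟨z, hz⟩ : ∃ z, z = (N : ℝ) * ((s : ℝ) / Q) ^ 2 / (8 * ρ ^ 2) := ⟨_, rfl⟩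
  have hz0 : 0 ≤ z := by
    rw [hz]
    positivity
  have hNb : (N : ℝ) ≤ Nb := by exact_mod_cast H.nb
  have hz1 : z ≤ (zz : ℝ) / (256 * Q ^ 2) := by
    rw [hz, hzz1]
    have h1 : (1 : ℝ) / (8 * ρ ^ 2) ≤ K / 256 := by
      rw [div_le_div_iff₀ (by positivity) (by norm_num)]
      linarith
    have h2 : (N : ℝ) * ((s : ℝ) / Q) ^ 2 / (8 * ρ ^ 2) =
        N * ((s : ℝ) / Q) ^ 2 * (1 / (8 * ρ ^ 2)) := by ring
    rw [h2]
    have h3 : (Nb : ℝ) * ((s : ℝ) * s * K) / (256 * Q ^ 2) =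
        Nb * ((s : ℝ) / Q) ^ 2 * (K / 256) := by
      field_simp
    rw [h3]
    exact mul_le_mul (mul_le_mul_of_nonneg_right hNb (by positivity)) h1 (by positivity)
      (by positivity)
  have hok' : (3 * (zz : ℝ)) < 1536 * Q ^ 2 := by
    have h2 : Nat.ble (3 * zz + 1) (1536 * (Q * Q)) = true := hok
    have h3 := Nat.le_of_ble_eq_true h2
    have : ((3 * zz : ℕ) : ℝ) < ((1536 * (Q * Q) : ℕ) : ℝ) := by exact_mod_cast h3
    push_cast at this
    linarith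
  have hz2 : (zz : ℝ) / (256 * Q ^ 2) < 2 := by
    rw [div_lt_iff₀ (by positivity)]
    linarith
  have hy : Real.exp z - 1 ≤ 2 * (zz : ℝ) / (512 * Q ^ 2 - zz) := by
    have h1 := exp_sub_one_le (z := (zz : ℝ) / (256 * Q ^ 2)) (by positivity) hz2
    have h2 : 2 * ((zz : ℝ) / (256 * Q ^ 2)) / (2 - (zz : ℝ) / (256 * Q ^ 2)) =
        2 * (zz : ℝ) / (512 * Q ^ 2 - zz) := by
      have h3 : (512 : ℝ) * Q ^ 2 - zz ≠ 0 := by
        have : 0 < (512 : ℝ) * Q ^ 2 - zz := by linarith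
        exact this.ne'
      have h4 : (2 : ℝ) - (zz : ℝ) / (256 * Q ^ 2) ≠ 0 := by
        have : 0 < (2 : ℝ) - (zz : ℝ) / (256 * Q ^ 2) := by linarith
        exact this.ne'
      rw [div_eq_div_iff h4 h3]
      field_simp
      ring
    rw [h2] at h1
    have := Real.exp_le_exp.2 hz1
    linarith
  have hbd : ∀ t, 0 ≤ t → t ≤ 1 →
      ‖qq (ru w (dr k)) ((1 - t) * ((nJ F : ℝ) / Q) + t * ((nJ F' : ℝ) / Q))‖ ≤
      Real.exp ((1 - t) * (N * VV (fr (nG F)) (fr (nD F)) (fr (nH F)) (av (uu w))) +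
        t * (N * VV (fr (nG F')) (fr (nD F')) (fr (nH F')) (av (uu w))) +
          4 * t * (1 - t) * z) := by
    intro t t0 t1
    have h1 := NDual.qq_le H.hN hρp hx hD0 hD1 (dr_norm k) (dir_eq _ _) (dir_eq _ _) H.hw H.ht
      t0 t1
    refine h1.trans (le_of_eq ?_)
    congr 1
    rw [hz, hlen]
    field_simp
    ring
  have hcell := cell_int (qq_cont (ru w (dr k))) hx hbd ha hb
    (m := (gmN a b : ℝ) / 1099511627776) (by positivity) (by
      have := gmN_ge a b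
      rw [div_mul_div_comm, div_pow]
      rw [show (1099511627776 : ℝ) * 1099511627776 = 1099511627776 ^ 2 by norm_num]
      exact div_le_div_of_nonneg_right this (by positivity))
    (le_refl (Real.exp z - 1)) (by
      have := Real.add_one_le_exp z
      linarith)
  have hc := cN_ge (s := s) (a := a) (b := b) hok hy
  have h5 := mul_le_mul_of_nonneg_right hcell
    (show (0 : ℝ) ≤ 4 * Q * 1099511627776 by positivity)
  refine h5.trans (le_trans (le_of_eq ?_) hc)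
  rw [hlen]
  field_simp

/-- a cell with the AM-GM bound -/
theorem TCtx.aN (H : TCtx N Na Nb Q k r0 r1 g0 g1 lp ln w R r g) {i j : ℕ} (hj : i < j) :
    (∫ x in (i : ℝ) / Q..(j : ℝ) / Q, ‖qq (ru w (dr k)) x‖) * (4 * Q * 1099511627776) ≤
      (aN Na Nb Q lp ln i j : ℝ) := by
  have hQ' : (0 : ℝ) < Q := Nat.cast_pos.2 H.q
  have h2Q : 0 < 2 * Q := by have := H.q; omega
  have c2Q : ((2 * Q : ℕ) : ℝ) = 2 * Q := by push_cast; ring
  have hE : ∀ i : ℕ, Curve.EN N (av (ru w (dr k))).re ((i : ℝ) / (2 * Q)) ≤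
      (uE Na Nb (2 * Q) lp ln i : ℝ) / 1099511627776 := by
    intro i
    have := uE_ge (j := i) H.na1 H.na H.nb h2Q H.lo H.ml
    rwa [c2Q] at this
  have hm : |(av (ru w (dr k))).re| ≤ 1 :=
    (Complex.abs_re_le_norm _).trans (av_norm_le H.hN H.hu)
  have hI : ∀ a b : ℝ, a < b → ∫ x in a..b, ‖qq (ru w (dr k)) x‖ ≤ (b - a) *
      (Curve.EN N (av (ru w (dr k))).re a + Curve.EN N (av (ru w (dr k))).re b) / 2 := by
    intro a b hab
    refine le_trans ?_ (Curve.EN_trap hm N hab)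
    exact integral_mono_on hab.le
      ((qq_cont (ru w (dr k))).norm.intervalIntegrable _ _)
      ((Curve.EN_cont _ _).intervalIntegrable _ _)
      fun x _ => Curve.norm_qq_le_EN H.hN H.hu x
  have p1 : ((2 * i : ℕ) : ℝ) / (2 * Q) = (i : ℝ) / Q := by
    push_cast
    field_simp
  have p3 : ((2 * j : ℕ) : ℝ) / (2 * Q) = (j : ℝ) / Q := by
    push_cast
    field_simp
  have hij : (i : ℝ) < j := by exact_mod_cast hj
  have l1 : ((2 * i : ℕ) : ℝ) / (2 * Q) < ((i + j : ℕ) : ℝ) / (2 * Q) := by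
    apply div_lt_div_of_pos_right _ (by positivity)
    push_cast
    linarith
  have l2 : ((i + j : ℕ) : ℝ) / (2 * Q) < ((2 * j : ℕ) : ℝ) / (2 * Q) := by
    apply div_lt_div_of_pos_right _ (by positivity)
    push_cast
    linarith
  have a1 := hI _ _ l1
  have a2 := hI _ _ l2
  have b1 := hE (2 * i)
  have b2 := hE (i + j)
  have b3 := hE (2 * j)
  rw [p1] at a1 b1
  rw [p3] at a2 b3
  have hc : Continuous fun x => ‖qq (ru w (dr k)) x‖ := (qq_cont _).norm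
  have hsplit : ∫ x in (i : ℝ) / Q..(j : ℝ) / Q, ‖qq (ru w (dr k)) x‖ =
      (∫ x in (i : ℝ) / Q..((i + j : ℕ) : ℝ) / (2 * Q), ‖qq (ru w (dr k)) x‖) +
        ∫ x in ((i + j : ℕ) : ℝ) / (2 * Q)..(j : ℝ) / Q, ‖qq (ru w (dr k)) x‖ :=
    (integral_add_adjacent_intervals (hc.intervalIntegrable _ _)
      (hc.intervalIntegrable _ _)).symm
  have e1 : ((i + j : ℕ) : ℝ) / (2 * Q) - (i : ℝ) / Q = ((j : ℝ) - i) / (2 * Q) := by
    push_cast
    field_simp
    ring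
  have e2 : (j : ℝ) / Q - ((i + j : ℕ) : ℝ) / (2 * Q) = ((j : ℝ) - i) / (2 * Q) := by
    push_cast
    field_simp
    ring
  rw [e1] at a1
  rw [e2] at a2
  have hd : 0 ≤ ((j : ℝ) - i) / (2 * Q) := by
    apply div_nonneg _ (by positivity)
    linarith
  have a1' : ∫ x in (i : ℝ) / Q..((i + j : ℕ) : ℝ) / (2 * Q), ‖qq (ru w (dr k)) x‖ ≤
      ((j : ℝ) - i) / (2 * Q) * ((uE Na Nb (2 * Q) lp ln (2 * i) : ℝ) / 1099511627776 +
        (uE Na Nb (2 * Q) lp ln (i + j) : ℝ) / 1099511627776) / 2 :=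
    a1.trans (div_le_div_of_nonneg_right (mul_le_mul_of_nonneg_left (add_le_add b1 b2) hd)
      (by norm_num))
  have a2' : ∫ x in ((i + j : ℕ) : ℝ) / (2 * Q)..(j : ℝ) / Q, ‖qq (ru w (dr k)) x‖ ≤
      ((j : ℝ) - i) / (2 * Q) * ((uE Na Nb (2 * Q) lp ln (i + j) : ℝ) / 1099511627776 +
        (uE Na Nb (2 * Q) lp ln (2 * j) : ℝ) / 1099511627776) / 2 :=
    a2.trans (div_le_div_of_nonneg_right (mul_le_mul_of_nonneg_left (add_le_add b2 b3) hd)
      (by norm_num))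
  rw [hsplit, aN_def]
  have h5 := mul_le_mul_of_nonneg_right (add_le_add a1' a2')
    (show (0 : ℝ) ≤ 4 * Q * 1099511627776 by positivity)
  refine h5.trans (le_of_eq ?_)
  rw [Nat.cast_mul, Nat.cast_sub hj.le]
  push_cast
  field_simp
  ring

theorem walkN_succ {A0 c0 s0 A1 c1 s1 cd je K F acc mask : ℕ}
    (h : 0 < walkN Na Nb Q r0 r1 A0 c0 s0 A1 c1 s1 cd lp ln je (K + 1) F acc mask) :
    nJ F < nJ (F >>> 96) ∧
    ((okN Q (zN Nb (nJ (F >>> 96) - nJ F) (mx2 (nK F) (nK (F >>> 96)))) = true ∧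
      walkN Na Nb Q r0 r1 A0 c0 s0 A1 c1 s1 cd lp ln je (K + 1) F acc mask =
      walkN Na Nb Q r0 r1 A0 c0 s0 A1 c1 s1 cd lp ln je K (F >>> 96)
        (acc + cN Q (nJ (F >>> 96) - nJ F) (zN Nb (nJ (F >>> 96) - nJ F)
          (mx2 (nK F) (nK (F >>> 96)))) (nE Na Nb r0 r1 A0 c0 s0 A1 c1 s1 cd F)
          (nE Na Nb r0 r1 A0 c0 s0 A1 c1 s1 cd (F >>> 96))) (mask >>> 1)) ∨
    walkN Na Nb Q r0 r1 A0 c0 s0 A1 c1 s1 cd lp ln je (K + 1) F acc mask =
      walkN Na Nb Q r0 r1 A0 c0 s0 A1 c1 s1 cd lp ln je K (F >>> 96)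
        (acc + aN Na Nb Q lp ln (nJ F) (nJ (F >>> 96))) (mask >>> 1)) := by
  have h1 : walkN Na Nb Q r0 r1 A0 c0 s0 A1 c1 s1 cd lp ln je (K + 1) F acc mask =
      bi (Nat.blt (nJ F) (nJ (F >>> 96)))
        (bi (Nat.beq (mask % 2) 1)
          (walkN Na Nb Q r0 r1 A0 c0 s0 A1 c1 s1 cd lp ln je K (F >>> 96)
            (acc + aN Na Nb Q lp ln (nJ F) (nJ (F >>> 96))) (mask >>> 1))
          (bi (okN Q (zN Nb (nJ (F >>> 96) - nJ F) (mx2 (nK F) (nK (F >>> 96)))))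
            (walkN Na Nb Q r0 r1 A0 c0 s0 A1 c1 s1 cd lp ln je K (F >>> 96)
              (acc + cN Q (nJ (F >>> 96) - nJ F) (zN Nb (nJ (F >>> 96) - nJ F)
                (mx2 (nK F) (nK (F >>> 96)))) (nE Na Nb r0 r1 A0 c0 s0 A1 c1 s1 cd F)
                (nE Na Nb r0 r1 A0 c0 s0 A1 c1 s1 cd (F >>> 96))) (mask >>> 1))
            0))
        0 := rfl
  rcases Bool.eq_false_or_eq_true (Nat.blt (nJ F) (nJ (F >>> 96))) with hc | hc
  · have hlt : nJ F < nJ (F >>> 96) := by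
      have h2 : Nat.ble (nJ F + 1) (nJ (F >>> 96)) = true := hc
      exact Nat.le_of_ble_eq_true h2
    refine ⟨hlt, ?_⟩
    rw [hc, bi_true] at h1
    rcases Bool.eq_false_or_eq_true (Nat.beq (mask % 2) 1) with h2 | h2
    · rw [h2, bi_true] at h1
      exact Or.inr h1
    · rw [h2, bi_false] at h1
      rcases Bool.eq_false_or_eq_true
        (okN Q (zN Nb (nJ (F >>> 96) - nJ F) (mx2 (nK F) (nK (F >>> 96))))) with h3 | h3
      · rw [h3, bi_true] at h1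
        exact Or.inl ⟨h3, h1⟩
      · rw [h3, bi_false] at h1
        rw [h1] at h
        exact absurd h (Nat.lt_irrefl 0)
  · rw [h1, hc, bi_false] at h
    exact absurd h (Nat.lt_irrefl 0)

theorem walkN_ok (H : TCtx N Na Nb Q k r0 r1 g0 g1 lp ln w R r g) {je : ℕ} :
    ∀ K F acc mask : ℕ, (∀ i, i ≤ K → NodeE Q k R (F >>> (96 * i))) →
    0 < walkN Na Nb Q r0 r1 (kA (tc g0) (ts g0)) (tc g0) (ts g0) (kA (tc g1) (ts g1)) (tc g1)
      (ts g1) (tc (g1 - g0)) lp ln je K F acc mask →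
    (acc : ℝ) + (∫ x in (nJ F : ℝ) / Q..(je : ℝ) / Q, ‖qq (ru w (dr k)) x‖) *
      (4 * Q * 1099511627776) ≤
      (walkN Na Nb Q r0 r1 (kA (tc g0) (ts g0)) (tc g0) (ts g0) (kA (tc g1) (ts g1)) (tc g1)
        (ts g1) (tc (g1 - g0)) lp ln je K F acc mask : ℝ) := by
  have hQ' : (0 : ℝ) < Q := Nat.cast_pos.2 H.q
  have hpos : (0 : ℝ) ≤ 4 * Q * 1099511627776 := by positivity
  intro K
  induction K with
  | zero =>
    intro F acc mask _ h
    have h1 : walkN Na Nb Q r0 r1 (kA (tc g0) (ts g0)) (tc g0) (ts g0) (kA (tc g1) (ts g1))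
      (tc g1) (ts g1) (tc (g1 - g0)) lp ln je 0 F acc mask =
        bi (Nat.ble je (nJ F)) (acc + 1) 0 := rfl
    rw [h1] at h ⊢
    rcases Bool.eq_false_or_eq_true (Nat.ble je (nJ F)) with h2 | h2
    · have h3 := Nat.le_of_ble_eq_true h2
      rw [h2, bi_true]
      have h4 : (∫ x in (nJ F : ℝ) / Q..(je : ℝ) / Q, ‖qq (ru w (dr k)) x‖) ≤ 0 := by
        rw [integral_symm, neg_nonpos]
        apply integral_nonneg _ fun x _ => norm_nonneg _
        apply div_le_div_of_nonneg_right _ hQ'.le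
        exact_mod_cast h3
      have := mul_nonpos_of_nonpos_of_nonneg h4 hpos
      push_cast
      linarith
    · rw [h2, bi_false] at h
      exact absurd h (Nat.lt_irrefl 0)
  | succ K ih =>
    intro F acc mask hP h
    have hc : Continuous fun x => ‖qq (ru w (dr k)) x‖ := (qq_cont _).norm
    have hP0 := hP 0 (Nat.zero_le _)
    rw [Nat.mul_zero, Nat.shiftRight_zero] at hP0
    have hP1 := hP 1 (by omega)
    rw [Nat.mul_one] at hP1
    have hPn : ∀ i, i ≤ K → NodeE Q k R ((F >>> 96) >>> (96 * i)) := by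
      intro i hi
      have := hP (i + 1) (by omega)
      rwa [show 96 * (i + 1) = 96 + 96 * i by ring, Nat.shiftRight_add] at this
    have hsplit : ∫ x in (nJ F : ℝ) / Q..(je : ℝ) / Q, ‖qq (ru w (dr k)) x‖ =
        (∫ x in (nJ F : ℝ) / Q..(nJ (F >>> 96) : ℝ) / Q, ‖qq (ru w (dr k)) x‖) +
          ∫ x in (nJ (F >>> 96) : ℝ) / Q..(je : ℝ) / Q, ‖qq (ru w (dr k)) x‖ :=
      (integral_add_adjacent_intervals (hc.intervalIntegrable _ _)
        (hc.intervalIntegrable _ _)).symm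
    obtain ⟨hlt, hcase⟩ := walkN_succ h
    rcases hcase with ⟨hok, he⟩ | he
    · rw [he] at h ⊢
      have h3 := ih _ _ _ hPn h
      refine le_trans ?_ h3
      have h4 := H.cN hP0 hP1 hlt hok (H.nE F) (H.nE (F >>> 96))
      rw [hsplit, add_mul, Nat.cast_add]
      linarith
    · rw [he] at h ⊢
      have h3 := ih _ _ _ hPn h
      refine le_trans ?_ h3
      have h4 := H.aN hlt
      rw [hsplit, add_mul, Nat.cast_add]
      linarith

/-- **soundness of `tailN`**, general form -/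
theorem tailN_ctx (H : TCtx N Na Nb Q k r0 r1 g0 g1 lp ln w R r g) {F n i0 K mask js je : ℕ}
    (hP : ∀ i, i < n → NodeE Q k R (F >>> (96 * i)))
    (hT : tailN Na Nb Q r0 r1 g0 g1 lp ln F n i0 K mask js je < 4294967296) :
    (N + 1) * ‖∫ x in (js : ℝ) / Q..(je : ℝ) / Q, qq (ru w (dr k)) x‖ ≤
      (tailN Na Nb Q r0 r1 g0 g1 lp ln F n i0 K mask js je : ℝ) / 2 ^ 24 := by
  have hQ' : (0 : ℝ) < Q := Nat.cast_pos.2 H.q
  set C := bi (Nat.blt (i0 + K) n) (bi (Nat.ble (g1 - g0) 100)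
      (bi (Nat.ble js je) (Nat.ble (nJ (F >>> (96 * i0))) js) false) false) false with hC
  set W := bi C
    (walkN Na Nb Q r0 r1 (kA (tc g0) (ts g0)) (tc g0) (ts g0) (kA (tc g1) (ts g1)) (tc g1)
      (ts g1) (tc (g1 - g0)) lp ln je K (F >>> (96 * i0)) 0 mask) 0 with hW
  have h1 : tailN Na Nb Q r0 r1 g0 g1 lp ln F n i0 K mask js je =
      bi (Nat.beq W 0) 1606938044258990275541962092341162602522202993782792835301376
        ((Nb + 1) * W / (262144 * Q) + 1) := rfl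
  rw [h1] at hT ⊢
  rcases Bool.eq_false_or_eq_true (Nat.beq W 0) with h2 | h2
  · rw [h2, bi_true] at hT
    norm_num at hT
  · rw [h2, bi_false]
    have hW0 : W ≠ 0 := by
      intro h3
      rw [h3] at h2
      cases h2
    rcases Bool.eq_false_or_eq_true C with h3 | h3
    · obtain ⟨q1, q2⟩ := (bi_and _ _).1 (hC ▸ h3)
      obtain ⟨_, q4⟩ := (bi_and _ _).1 q2
      obtain ⟨q5, q6⟩ := (bi_and _ _).1 q4
      have hK : i0 + K < n := by
        have h5 : Nat.ble (i0 + K + 1) n = true := q1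
        exact Nat.le_of_ble_eq_true h5
      have hjs := Nat.le_of_ble_eq_true q5
      have hj0 := Nat.le_of_ble_eq_true q6
      rw [h3, bi_true] at hW
      have h4 := walkN_ok H (je := je) K (F >>> (96 * i0)) 0 mask (fun i hi => by
        have := hP (i0 + i) (by omega)
        rw [Nat.mul_add, Nat.shiftRight_add] at this
        exact this) (by rw [← hW]; exact Nat.pos_of_ne_zero hW0)
      rw [← hW, Nat.cast_zero, zero_add] at h4
      have h5 := real_le_div ((Nb + 1) * W) (262144 * Q) (by have := H.q; omega)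
      have hNb : (N : ℝ) ≤ Nb := by exact_mod_cast H.nb
      rw [le_div_iff₀ (by positivity)]
      refine le_trans ?_ h5
      rw [le_div_iff₀ (by have := H.q; positivity)]
      push_cast
      have hc : Continuous fun x => ‖qq (ru w (dr k)) x‖ := (qq_cont _).norm
      have hle : (js : ℝ) / Q ≤ (je : ℝ) / Q := by
        apply div_le_div_of_nonneg_right _ hQ'.le
        exact_mod_cast hjs
      have hI : ‖∫ x in (js : ℝ) / Q..(je : ℝ) / Q, qq (ru w (dr k)) x‖ ≤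
          ∫ x in (nJ (F >>> (96 * i0)) : ℝ) / Q..(je : ℝ) / Q, ‖qq (ru w (dr k)) x‖ := by
        refine (intervalIntegral.norm_integral_le_integral_norm hle).trans ?_
        have hsplit : ∫ x in (nJ (F >>> (96 * i0)) : ℝ) / Q..(je : ℝ) / Q,
            ‖qq (ru w (dr k)) x‖ =
            (∫ x in (nJ (F >>> (96 * i0)) : ℝ) / Q..(js : ℝ) / Q, ‖qq (ru w (dr k)) x‖) +
              ∫ x in (js : ℝ) / Q..(je : ℝ) / Q, ‖qq (ru w (dr k)) x‖ :=
          (integral_add_adjacent_intervals (hc.intervalIntegrable _ _)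
            (hc.intervalIntegrable _ _)).symm
        rw [hsplit]
        have : 0 ≤ ∫ x in (nJ (F >>> (96 * i0)) : ℝ) / Q..(js : ℝ) / Q,
            ‖qq (ru w (dr k)) x‖ := by
          apply integral_nonneg _ fun x _ => norm_nonneg _
          apply div_le_div_of_nonneg_right _ hQ'.le
          exact_mod_cast hj0
        linarith
      set I := ‖∫ x in (js : ℝ) / Q..(je : ℝ) / Q, qq (ru w (dr k)) x‖ with hId
      have hI0 : 0 ≤ I := norm_nonneg _
      have h6 : I * (4 * Q * 1099511627776) ≤ W :=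
        (mul_le_mul_of_nonneg_right hI (by positivity)).trans h4
      calc (N + 1) * I * 2 ^ 24 * (262144 * Q) = (N + 1) * (I * (4 * Q * 1099511627776)) := by
            norm_num
            ring
        _ ≤ (N + 1) * W := mul_le_mul_of_nonneg_left h6 (by positivity)
        _ ≤ (Nb + 1) * W := mul_le_mul_of_nonneg_right (by linarith) (Nat.cast_nonneg _)
    · rw [h3, bi_false] at hW
      exact absurd hW hW0

end

/-- the meaning of a node family with `n` entries -/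
def FamN (M Q k r0 r1 F n : ℕ) : Prop :=
  0 < Q ∧ ∀ i, i < n → ∀ R : ℝ, (r0 : ℝ) / M ≤ R → R ≤ r1 / M → NodeE Q k R (F >>> (96 * i))

/-- **soundness of `tailN`** (form for the box layer) -/
theorem tailN_sound {N Na Nb M Q k rD0 rD1 r0 r1 g0 g1 lp ln F n i0 K mask js je : ℕ}
    {w : Fin N → ℂ} {R r g : ℝ} (hF : FamN M Q k rD0 rD1 F n)
    (hR0 : (rD0 : ℝ) / M ≤ R) (hR1 : R ≤ rD1 / M)
    (hNa1 : 1 ≤ Na) (hNa : Na ≤ N) (hNb : N ≤ Nb)
    (hw : ∀ i, 1 ≤ ‖w i‖) (ht : ∑ i, ‖w i - (R : ℂ)‖ ≤ N)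
    (hr0 : (r0 : ℝ) / 4096 ≤ r) (hr1 : r ≤ (r1 : ℝ) / 4096)
    (hg : g0 ≤ g1) (hg2 : g1 ≤ 256) (hg0 : (g0 : ℝ) / 64 ≤ g) (hg1 : g ≤ (g1 : ℝ) / 64)
    (hm : av (uu w) = (r : ℂ) * Complex.exp ((g : ℂ) * Complex.I))
    (hlo : mr lp ln ≤ (av (ru w (dr k))).re) (hlp : ln ≤ lp + 1099511627776)
    (hT : tailN Na Nb Q r0 r1 g0 g1 lp ln F n i0 K mask js je < 4294967296) :
    (N + 1) * ‖∫ x in (js : ℝ) / Q..(je : ℝ) / Q, qq (ru w (dr k)) x‖ ≤
      (tailN Na Nb Q r0 r1 g0 g1 lp ln F n i0 K mask js je : ℝ) / 2 ^ 24 := by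
  have hgd : g1 - g0 ≤ 100 := by
    by_contra hc
    have h2 : Nat.ble (g1 - g0) 100 = false := by
      rw [Bool.eq_false_iff, ne_eq, Nat.ble_eq]; exact hc
    set C := bi (Nat.blt (i0 + K) n) (bi (Nat.ble (g1 - g0) 100)
      (bi (Nat.ble js je) (Nat.ble (nJ (F >>> (96 * i0))) js) false) false) false with hC
    have h1 : tailN Na Nb Q r0 r1 g0 g1 lp ln F n i0 K mask js je =
      (fun W => bi (Nat.beq W 0) 1606938044258990275541962092341162602522202993782792835301376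
        ((Nb + 1) * W / (262144 * Q) + 1)) (bi C
        (walkN Na Nb Q r0 r1 (kA (tc g0) (ts g0)) (tc g0) (ts g0) (kA (tc g1) (ts g1)) (tc g1)
          (ts g1) (tc (g1 - g0)) lp ln je K (F >>> (96 * i0)) 0 mask) 0) := rfl
    have h3 : C = false := by
      rw [hC, h2]
      cases Nat.blt (i0 + K) n <;> rfl
    rw [h1, h3, bi_false] at hT
    have h4 : Nat.beq 0 0 = true := rfl
    simp only [h4, bi_true] at hT
    norm_num at hT
  have hN : 1 ≤ N := hNa1.trans hNa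
  have hu : ∀ i, ‖ru w (dr k) i‖ ≤ 1 := by
    intro i
    show ‖dr k * uu w i‖ ≤ 1
    rw [norm_mul, dr_norm, one_mul]
    show ‖(w i)⁻¹‖ ≤ 1
    rw [norm_inv]
    exact inv_le_one_of_one_le₀ (hw i)
  have hml : |mr lp ln| ≤ 1 := by
    rw [abs_le]
    constructor
    · have : (ln : ℝ) ≤ ((lp + 1099511627776 : ℕ) : ℝ) := by exact_mod_cast hlp
      push_cast at this
      unfold mr
      rw [le_div_iff₀ (by norm_num)]
      linarith
    · exact hlo.trans ((Complex.re_le_norm _).trans (av_norm_le hN hu))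
  have hre : (av (uu w)).re = r * Real.cos g := by
    rw [hm, Complex.re_ofReal_mul, Complex.exp_ofReal_mul_I_re]
  have him : (av (uu w)).im = r * Real.sin g := by
    rw [hm, Complex.im_ofReal_mul, Complex.exp_ofReal_mul_I_im]
  have H : TCtx N Na Nb Q k r0 r1 g0 g1 lp ln w R r g :=
    ⟨hNa1, hNa, hNb, hF.1, hw, ht, hr0, hr1, hg, hg2, hgd, hg0, hg1, hre, him, hml, hlo⟩
  exact tailN_ctx H (fun i hi => hF.2 i hi R hR0 hR1) hT

end Pool.Agent.Lib.MP_af3a4a_an.P1.CHK.TAIL
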