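import Pool.Agent.Lib.MP_af3a4a_an.P1.CHK.H39.Near
import Pool.Agent.Lib.MP_af3a4a_an.P1.CHK.TAIL.NTail

/-!
# Node tails, part 5: pools of certified nodes and families (council 2, helper62)
-/

set_option autoImplicit false

namespace Pool.Agent.Lib.MP_af3a4a_an.P1.CHK.TAIL

open Pool.Agent.Lib.MP_af3a4a_an.P1.CHK.H39.Interp (NDual nchk nchk_sound)

/-- one node entry with its certificate: `a = α 2^20`, stream `c`, radius `p / M` -/
def nodeN (M B k r0 r1 e a c p : ℕ) : Bool :=
  bif nchk M k (Nat.mul (nJ e) B) r0 r1 a (Nat.sub (nG e) 8388608) (Nat.sub 8388608 (nG e))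
    (Nat.sub (nD e) 8388608) (Nat.sub 8388608 (nD e)) (Nat.sub (nH e) 8388608)
    (Nat.sub 8388608 (nH e)) c p then
    Nat.ble (Nat.mul 32 (Nat.mul M M)) (Nat.mul (nK e) (Nat.mul p p)) else false

theorem nodeN_sound {M B Q k r0 r1 e a c p : ℕ} (hM : Q * B = M) (hQ : 0 < Q) (hB : 0 < B)
    (h : nodeN M B k r0 r1 e a c p = true) {R : ℝ} (hR0 : (r0 : ℝ) / M ≤ R)
    (hR1 : R ≤ r1 / M) : NodeE Q k R e := by
  unfold nodeN at h
  simp only [Bool.cond_eq_ite] at h
  split_ifs at h with h1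
  have hx : (((nJ e * B : ℕ) : ℝ) / M) = (nJ e : ℝ) / Q := by
    have hQ' : (0 : ℝ) < Q := Nat.cast_pos.2 hQ
    have hB' : (0 : ℝ) < B := Nat.cast_pos.2 hB
    rw [← hM]
    push_cast
    field_simp
  have hM0 : 0 < M := by
    rw [← hM]
    exact Nat.mul_pos hQ hB
  have hM' : (0 : ℝ) < M := Nat.cast_pos.2 hM0
  obtain ⟨hD, hp⟩ := nchk_sound h1 hR0 hR1
  simp only [Nat.sub_eq, Nat.mul_eq] at hD
  rw [hx, off_fr, off_fr, off_fr] at hD
  refine ⟨_, _, hp, ?_, hD⟩
  have h2 := Nat.le_of_ble_eq_true h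
  have h3 : ((32 * (M * M) : ℕ) : ℝ) ≤ ((nK e * (p * p) : ℕ) : ℝ) := by exact_mod_cast h2
  push_cast at h3
  rw [div_pow, mul_div_assoc', le_div_iff₀ (by positivity)]
  linarith

/-- the nodes of a pool -/
def pgo (M B k r0 r1 : ℕ) : List (ℕ × ℕ × ℕ) → ℕ → Bool
  | [], _ => true
  | (a, c, p) :: cs, F =>
    bif nodeN M B k r0 r1 F a c p then pgo M B k r0 r1 cs (Nat.shiftRight F 96) else false

theorem pgo_sound {M B Q k r0 r1 : ℕ} (hM : Q * B = M) (hQ : 0 < Q) (hB : 0 < B) :
    ∀ (certs : List (ℕ × ℕ × ℕ)) (F : ℕ), pgo M B k r0 r1 certs F = true →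
    ∀ i, i < certs.length → ∀ R : ℝ, (r0 : ℝ) / M ≤ R → R ≤ r1 / M →
      NodeE Q k R (F >>> (96 * i)) := by
  intro certs
  induction certs with
  | nil =>
    intro F _ i hi
    exact absurd hi (Nat.not_lt_zero _)
  | cons t cs ih =>
    obtain ⟨a, c, p⟩ := t
    intro F h i hi R hR0 hR1
    rw [pgo] at h
    simp only [Bool.cond_eq_ite] at h
    split_ifs at h with h1
    rcases i with _ | i
    · rw [Nat.mul_zero, Nat.shiftRight_zero]
      exact nodeN_sound hM hQ hB h1 hR0 hR1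
    · have := ih (F >>> 96) h i (by
        simp only [List.length_cons] at hi
        omega) R hR0 hR1
      rw [← Nat.shiftRight_add] at this
      rw [show 96 * (i + 1) = 96 + 96 * i by ring]
      exact this

/-- **the check of a pool** (or of a family with its own certificates), `B = M/Q` -/
def poolOK (M Q k r0 r1 P : ℕ) (certs : List (ℕ × ℕ × ℕ)) : Bool :=
  bif Nat.ble 1 Q then bif Nat.ble 1 M then bif Nat.beq (Nat.mul Q (Nat.div M Q)) M then
    pgo M (Nat.div M Q) k r0 r1 certs P else false else false else false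

/-- **soundness of the check of a pool** -/
theorem poolOK_sound {M Q k r0 r1 P : ℕ} {certs : List (ℕ × ℕ × ℕ)}
    (h : poolOK M Q k r0 r1 P certs = true) : FamN M Q k r0 r1 P certs.length := by
  unfold poolOK at h
  simp only [Bool.cond_eq_ite] at h
  split_ifs at h with h1 h2 h3
  have hQ : 0 < Q := Nat.le_of_ble_eq_true h1
  have hM : 0 < M := Nat.le_of_ble_eq_true h2
  have hB : Q * (M / Q) = M := Nat.eq_of_beq_eq_true h3
  refine ⟨hQ, pgo_sound hB hQ ?_ certs P h⟩
  rcases Nat.eq_zero_or_pos (M / Q) with h4 | h4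
  · rw [h4, Nat.mul_zero] at hB
    omega
  · exact h4

theorem nodeE_congr {Q k : ℕ} {R : ℝ} {e e' : ℕ}
    (h : e % 79228162514264337593543950336 = e' % 79228162514264337593543950336)
    (H : NodeE Q k R e) : NodeE Q k R e' := by
  have hJ : nJ e = nJ e' := by
    rw [nJ_def, nJ_def]
    omega
  have hK : nK e = nK e' := by
    rw [nK_def, nK_def, Nat.shiftRight_eq_div_pow, Nat.shiftRight_eq_div_pow]
    norm_num
    omega
  have hG : nG e = nG e' := by
    rw [nG_def, nG_def, Nat.shiftRight_eq_div_pow, Nat.shiftRight_eq_div_pow]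
    norm_num
    omega
  have hD : nD e = nD e' := by
    rw [nD_def, nD_def, Nat.shiftRight_eq_div_pow, Nat.shiftRight_eq_div_pow]
    norm_num
    omega
  have hH : nH e = nH e' := by
    rw [nH_def, nH_def, Nat.shiftRight_eq_div_pow, Nat.shiftRight_eq_div_pow]
    norm_num
    omega
  unfold NodeE at H ⊢
  rw [← hJ, ← hK, ← hG, ← hD, ← hH]
  exact H

/-- the entries of `F` are the entries of `P` with the given indices -/
def selOK (P n : ℕ) : List ℕ → ℕ → Bool
  | [], _ => true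
  | i :: is, F =>
    bif Nat.blt i n then
      bif Nat.beq (Nat.mod F 79228162514264337593543950336)
        (Nat.mod (Nat.shiftRight P (Nat.mul 96 i)) 79228162514264337593543950336) then
        selOK P n is (Nat.shiftRight F 96) else false
    else false

theorem sel_go {M Q k r0 r1 P n : ℕ} (hP : FamN M Q k r0 r1 P n) :
    ∀ (l : List ℕ) (F : ℕ), selOK P n l F = true →
    ∀ i, i < l.length → ∀ R : ℝ, (r0 : ℝ) / M ≤ R → R ≤ r1 / M → NodeE Q k R (F >>> (96 * i)) := by
  intro l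
  induction l with
  | nil =>
    intro F _ i hi
    exact absurd hi (Nat.not_lt_zero _)
  | cons t is ih =>
    intro F h i hi R hR0 hR1
    rw [selOK] at h
    simp only [Bool.cond_eq_ite] at h
    split_ifs at h with h1 h2
    have ht : t < n := Nat.le_of_ble_eq_true h1
    have he := Nat.eq_of_beq_eq_true h2
    rcases i with _ | i
    · rw [Nat.mul_zero, Nat.shiftRight_zero]
      exact nodeE_congr he.symm (hP.2 t ht R hR0 hR1)
    · have := ih (F >>> 96) h i (by
        simp only [List.length_cons] at hi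
        omega) R hR0 hR1
      rw [← Nat.shiftRight_add] at this
      rw [show 96 * (i + 1) = 96 + 96 * i by ring]
      exact this

/-- **a family selected from a pool** -/
theorem selOK_sound {M Q k r0 r1 P n F : ℕ} {l : List ℕ} (hP : FamN M Q k r0 r1 P n)
    (h : selOK P n l F = true) : FamN M Q k r0 r1 F l.length :=
  ⟨hP.1, sel_go hP l F h⟩

/-- a smaller `R`-cell -/
theorem FamN.mono {M Q k r0 r1 r0' r1' P n : ℕ} (hP : FamN M Q k r0 r1 P n) (hM : 0 < M)
    (h0 : r0 ≤ r0') (h1 : r1' ≤ r1) : FamN M Q k r0' r1' P n := by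
  have hM' : (0 : ℝ) < M := Nat.cast_pos.2 hM
  refine ⟨hP.1, fun i hi R hR0 hR1 => hP.2 i hi R (le_trans ?_ hR0) (hR1.trans ?_)⟩
  · apply div_le_div_of_nonneg_right _ hM'.le
    exact_mod_cast h0
  · apply div_le_div_of_nonneg_right _ hM'.le
    exact_mod_cast h1

/-- fewer entries -/
theorem FamN.take {M Q k r0 r1 P n n' : ℕ} (hP : FamN M Q k r0 r1 P n) (h : n' ≤ n) :
    FamN M Q k r0 r1 P n' :=
  ⟨hP.1, fun i hi => hP.2 i (lt_of_lt_of_le hi h)⟩

/-- **two pools of the same cell**: `P` followed by `P'` -/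
theorem FamN.append {M Q k r0 r1 P n P' n' : ℕ} (hP : FamN M Q k r0 r1 P n)
    (hP' : FamN M Q k r0 r1 P' n') :
    FamN M Q k r0 r1 (P % 2 ^ (96 * n) + P' * 2 ^ (96 * n)) (n + n') := by
  refine ⟨hP.1, fun i hi R hR0 hR1 => ?_⟩
  have hpos : 0 < 2 ^ (96 * n) := by positivity
  rcases lt_or_ge i n with h | h
  · refine nodeE_congr ?_ (hP.2 i h R hR0 hR1)
    have e1 : 96 * n = 96 * i + 96 * (n - i) := by omega
    have e2 : 96 ≤ 96 * (n - i) := by omega
    rw [Nat.shiftRight_eq_div_pow, Nat.shiftRight_eq_div_pow]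
    have hd : 2 ^ (96 * n) = 2 ^ (96 * i) * 2 ^ (96 * (n - i)) := by rw [← pow_add, ← e1]
    have k1 : (P % 2 ^ (96 * n) + P' * 2 ^ (96 * n)) / 2 ^ (96 * i) =
        P / 2 ^ (96 * i) % 2 ^ (96 * (n - i)) + P' * 2 ^ (96 * (n - i)) := by
      have k2 : P' * 2 ^ (96 * n) = 2 ^ (96 * i) * (P' * 2 ^ (96 * (n - i))) := by
        rw [hd]
        ring
      rw [k2, Nat.add_mul_div_left _ _ (by positivity), hd, Nat.mod_mul_right_div_self]
    rw [k1]
    have e3 : 2 ^ (96 * (n - i)) = 79228162514264337593543950336 * 2 ^ (96 * (n - i) - 96) := by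
      rw [show (79228162514264337593543950336 : ℕ) = 2 ^ 96 by norm_num, ← pow_add]
      congr 1
      omega
    rw [e3, ← mul_assoc, mul_comm P', mul_assoc, Nat.add_mul_mod_self_left, Nat.mod_mul_right_mod]
  · have h2 : i - n < n' := by omega
    have := hP'.2 (i - n) h2 R hR0 hR1
    rw [Nat.shiftRight_eq_div_pow] at this ⊢
    have e1 : 96 * i = 96 * n + 96 * (i - n) := by omega
    rw [e1, pow_add, ← Nat.div_div_eq_div_mul, Nat.add_mul_div_right _ _ hpos,
      Nat.div_eq_of_lt (Nat.mod_lt _ hpos), zero_add]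
    exact this

end Pool.Agent.Lib.MP_af3a4a_an.P1.CHK.TAIL
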