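import Pool.Agent.Lib.MP_af3a4a_an.P1.CHK.Curve.Defs
import Pool.Agent.Lib.MP_af3a4a_an.P1.CHK.H74.OffDefs
import Pool.Agent.Lib.MP_af3a4a_an.P1.CHK.BOX.Trig

/-!
# Tails, part 2: definitions (council 2, helper62)

ENTRY (one `x`-cell, pair dual), lowest bits first: `j` (12 bits, `x0 = j/Q`), `s` (4 bits,
`x1 = (j+s)/Q`), then fields of 24 bits with offset `2^23 = 8388608` in units `2^-20`: `γ`, `δ`,
`h0` (height at `x0`), `hm` (height at the midpoint), `h1` (height at `x1`). Stride 144 bits.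
-/

set_option autoImplicit false

namespace Pool.Agent.Lib.MP_af3a4a_an.P1.CHK.TAIL

open Pool.Agent.Lib.MP_af3a4a_an.P1.CHK.Arith (es esL)
open Pool.Agent.Lib.MP_af3a4a_an.P1.CHK.Curve (bi uE)
open Pool.Agent.Lib.MP_af3a4a_an.P1.CHK.BOX (tc ts)
open Pool.Agent.Lib.MP_af3a4a_an.P1.CHK.H74 (ochk)

/-- start node -/
def eJ (e : ℕ) : ℕ :=
  (Nat.mod e 4096)

theorem eJ_def (e : ℕ) : eJ e =
    (e % 4096) := rfl

/-- width -/
def eS (e : ℕ) : ℕ :=
  (Nat.mod (Nat.shiftRight e 12) 16)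

theorem eS_def (e : ℕ) : eS e =
    ((e >>> 12) % 16) := rfl

/-- `γ` -/
def fG (e : ℕ) : ℕ :=
  (Nat.mod (Nat.shiftRight e 16) 16777216)

theorem fG_def (e : ℕ) : fG e =
    ((e >>> 16) % 16777216) := rfl

/-- `δ` -/
def fD (e : ℕ) : ℕ :=
  (Nat.mod (Nat.shiftRight e 40) 16777216)

theorem fD_def (e : ℕ) : fD e =
    ((e >>> 40) % 16777216) := rfl

/-- `h0` -/
def f0 (e : ℕ) : ℕ :=
  (Nat.mod (Nat.shiftRight e 64) 16777216)

theorem f0_def (e : ℕ) : f0 e =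
    ((e >>> 64) % 16777216) := rfl

/-- `hm` -/
def fM (e : ℕ) : ℕ :=
  (Nat.mod (Nat.shiftRight e 88) 16777216)

theorem fM_def (e : ℕ) : fM e =
    ((e >>> 88) % 16777216) := rfl

/-- `h1` -/
def f1 (e : ℕ) : ℕ :=
  (Nat.mod (Nat.shiftRight e 112) 16777216)

theorem f1_def (e : ℕ) : f1 e =
    ((e >>> 112) % 16777216) := rfl

/-- `2^80 - 2^60 (γ cos g + δ sin g)`, rounded up -/
def ngA (G D c s : ℕ) : ℕ :=
  (Nat.sub (Nat.add (Nat.add 1208925819614629174706176 16777216) (Nat.add (Nat.mul 8388608 (Nat.add c s)) (Nat.mul 2199023255552 (Nat.add G D)))) (Nat.add (Nat.add (Nat.mul G c) (Nat.mul D s)) 36893488147419103232))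

theorem ngA_def (G D c s : ℕ) : ngA G D c s =
    (((1208925819614629174706176 + 16777216) + ((8388608 * (c + s)) + (2199023255552 * (G + D)))) - (((G * c) + (D * s)) + 36893488147419103232)) := rfl

/-- maximum -/
def mx2 (a b : ℕ) : ℕ :=
  (bi (Nat.ble a b) b a)

theorem mx2_def (a b : ℕ) : mx2 a b =
    (bi (Nat.ble a b) b a) := rfl

/-- `2^80 - 2^60 min (γ cos g + δ sin g)` over the arc -/
def mxA (a b cd : ℕ) : ℕ :=
  (bi (Nat.ble (Nat.add a b) 2417851639229258349412352) (mx2 a b) (mx2 (mx2 a b) (Nat.add (Nat.add 1208925819614629174706176 (Nat.div (Nat.mul (Nat.sub (Nat.add a b) 2417851639229258349412352) 1099511627776) (Nat.sub cd 1099511627777))) 1)))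

theorem mxA_def (a b cd : ℕ) : mxA a b cd =
    (bi (Nat.ble (a + b) 2417851639229258349412352) (mx2 a b) (mx2 (mx2 a b) ((1208925819614629174706176 + ((((a + b) - 2417851639229258349412352) * 1099511627776) / (cd - 1099511627777))) + 1))) := rfl

def eR (r0 r1 mx : ℕ) : ℕ :=
  (bi (Nat.ble mx 1208925819614629174706176) r0 r1)

theorem eR_def (r0 r1 mx : ℕ) : eR r0 r1 mx =
    (bi (Nat.ble mx 1208925819614629174706176) r0 r1) := rfl

def eV1 (r0 r1 mx : ℕ) : ℕ :=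
  (Nat.add (Nat.mul (eR r0 r1 mx) (Nat.sub mx 1208925819614629174706176)) 37778931862957161709568)

theorem eV1_def (r0 r1 mx : ℕ) : eV1 r0 r1 mx =
    (((eR r0 r1 mx) * (mx - 1208925819614629174706176)) + 37778931862957161709568) := rfl

def eV2 (r0 r1 mx : ℕ) : ℕ :=
  (Nat.mul (eR r0 r1 mx) (Nat.sub 1208925819614629174706176 mx))

theorem eV2_def (r0 r1 mx : ℕ) : eV2 r0 r1 mx =
    ((eR r0 r1 mx) * (1208925819614629174706176 - mx)) := rfl

/-- upper bound of `exp (-N (h + min))` -/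
def eE (Na Nb V1 V2 H : ℕ) : ℕ :=
  ((fun vn => (es (Nat.add (Nat.shiftRight (Nat.mul Nb (Nat.sub V1 vn)) 32) 1) (Nat.shiftRight (Nat.mul Na (Nat.sub vn V1)) 32))) (Nat.add V2 (Nat.mul H 4503599627370496)))

theorem eE_def (Na Nb V1 V2 H : ℕ) : eE Na Nb V1 V2 H =
    ((fun vn => (es (((Nb * (V1 - vn)) >>> 32) + 1) ((Na * (vn - V1)) >>> 32))) (V2 + (H * 4503599627370496))) := rfl

/-- value of a cell -/
def cV (s j j0 je E0 E1 E2 : ℕ) : ℕ :=
  (Nat.mul s (Nat.add (bi (Nat.beq j j0) (Nat.add E0 E1) 0) (bi (Nat.ble (Nat.add j0 s) je) (Nat.add E1 E2) 0)))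

theorem cV_def (s j j0 je E0 E1 E2 : ℕ) : cV s j j0 je E0 E1 E2 =
    (s * ((bi (Nat.beq j j0) (E0 + E1) 0) + (bi (Nat.ble (j0 + s) je) (E1 + E2) 0))) := rfl

/-- cell with the AM-GM bound -/
def cU (Na Nb Q lp ln e j je : ℕ) : ℕ :=
  (cV (eS e) j (eJ e) je (uE Na Nb (Nat.mul 2 Q) lp ln (Nat.mul 2 (eJ e))) (uE Na Nb (Nat.mul 2 Q) lp ln (Nat.add (Nat.mul 2 (eJ e)) (eS e))) (uE Na Nb (Nat.mul 2 Q) lp ln (Nat.add (Nat.mul 2 (eJ e)) (Nat.mul 2 (eS e)))))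

theorem cU_def (Na Nb Q lp ln e j je : ℕ) : cU Na Nb Q lp ln e j je =
    (cV (eS e) j (eJ e) je (uE Na Nb (2 * Q) lp ln (2 * (eJ e))) (uE Na Nb (2 * Q) lp ln ((2 * (eJ e)) + (eS e))) (uE Na Nb (2 * Q) lp ln ((2 * (eJ e)) + (2 * (eS e))))) := rfl

/-- cell with the dual -/
def cD (Na Nb r0 r1 c0 s0 c1 s1 cd e j je : ℕ) : ℕ :=
  ((fun V1 V2 => (cV (eS e) j (eJ e) je (eE Na Nb V1 V2 (f0 e)) (eE Na Nb V1 V2 (fM e)) (eE Na Nb V1 V2 (f1 e)))) (eV1 r0 r1 (mxA (ngA (fG e) (fD e) c0 s0) (ngA (fG e) (fD e) c1 s1) cd)) (eV2 r0 r1 (mxA (ngA (fG e) (fD e) c0 s0) (ngA (fG e) (fD e) c1 s1) cd)))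

theorem cD_def (Na Nb r0 r1 c0 s0 c1 s1 cd e j je : ℕ) : cD Na Nb r0 r1 c0 s0 c1 s1 cd e j je =
    ((fun V1 V2 => (cV (eS e) j (eJ e) je (eE Na Nb V1 V2 (f0 e)) (eE Na Nb V1 V2 (fM e)) (eE Na Nb V1 V2 (f1 e)))) (eV1 r0 r1 (mxA (ngA (fG e) (fD e) c0 s0) (ngA (fG e) (fD e) c1 s1) cd)) (eV2 r0 r1 (mxA (ngA (fG e) (fD e) c0 s0) (ngA (fG e) (fD e) c1 s1) cd))) := rfl

/-- the walk over the cells; result `0` = broken, otherwise `1 +` sum -/
def walk (Na Nb Q r0 r1 c0 s0 c1 s1 cd lp ln je : ℕ) (K : ℕ) : ℕ → ℕ → ℕ → ℕ → ℕ :=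
  Nat.rec (fun _ j acc _ => bi (Nat.beq j je) (Nat.add acc 1) 0)
    (fun _ ih F j acc mask =>
      bi (bi (bi (Nat.beq j (eJ F)) true (Nat.beq (Nat.mul 2 j) (Nat.add (Nat.mul 2 (eJ F)) (eS F))))
          (bi (Nat.ble (Nat.add (eJ F) (eS F)) je) true
            (Nat.beq (Nat.mul 2 je) (Nat.add (Nat.mul 2 (eJ F)) (eS F)))) false)
        (ih (Nat.shiftRight F 144) (bi (Nat.ble (Nat.add (eJ F) (eS F)) je) (Nat.add (eJ F) (eS F)) je)
          (Nat.add acc (bi (Nat.beq (Nat.mod mask 2) 1) (cU Na Nb Q lp ln F j je)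
            (cD Na Nb r0 r1 c0 s0 c1 s1 cd F j je))) (Nat.shiftRight mask 1))
        0) K

/-- **the tail**: upper bound of `2^24 (N+1) |∫_{js/Q}^{je/Q} q|`; `2^200` if broken -/
def tailT (Na Nb Q r0 r1 g0 g1 lp ln F n i0 K mask js je : ℕ) : ℕ :=
  (fun W => bi (Nat.beq W 0) 1606938044258990275541962092341162602522202993782792835301376
    (Nat.add (Nat.div (Nat.mul (Nat.add Nb 1) W) (Nat.mul 262144 Q)) 1))
  (bi (bi (Nat.ble (Nat.add i0 K) n) (Nat.ble (Nat.sub g1 g0) 100) false)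
    (walk Na Nb Q r0 r1 (tc g0) (ts g0) (tc g1) (ts g1) (tc (Nat.sub g1 g0)) lp ln je K
      (Nat.shiftRight F (Nat.mul 144 i0)) js 0 mask) 0)

/-! ### the certificate of a family -/

/-- midpoint height -/
def midOK (h0 hm h1 : ℕ) : Bool :=
  Nat.ble (Nat.add (es (Nat.mul (Nat.sub 8388608 h0) 1048576) (Nat.mul (Nat.sub h0 8388608) 1048576))
      (es (Nat.mul (Nat.sub 8388608 h1) 1048576) (Nat.mul (Nat.sub h1 8388608) 1048576)))
    (Nat.mul 2 (esL (Nat.mul (Nat.sub 8388608 hm) 1048576) (Nat.mul (Nat.sub hm 8388608) 1048576)))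

/-- one node -/
def node (M k xm r0 r1 a G D H c : ℕ) : Bool :=
  ochk M k xm r0 r1 a (Nat.sub G 8388608) (Nat.sub 8388608 G) (Nat.sub D 8388608)
    (Nat.sub 8388608 D) (Nat.sub H 8388608) (Nat.sub 8388608 H) c

/-- the check of the entries: `certs = (a, c, c')`, `c = 0`: node shared with the previous entry -/
def fgo (M B k r0 r1 : ℕ) : List (ℕ × ℕ × ℕ) → ℕ → Bool → ℕ → ℕ → Bool
  | [], _, _, _, _ => true
  | (a, c, c') :: cs, F, fl, pe, pa =>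
    bif (bif Nat.beq c 0 then
          fl && (Nat.beq pa a && (Nat.beq (fG pe) (fG F) && (Nat.beq (fD pe) (fD F) &&
            (Nat.beq (f1 pe) (f0 F) && Nat.beq (Nat.add (eJ pe) (eS pe)) (eJ F)))))
        else node M k (Nat.mul (eJ F) B) r0 r1 a (fG F) (fD F) (f0 F) c) then
      bif node M k (Nat.mul (Nat.add (eJ F) (eS F)) B) r0 r1 a (fG F) (fD F) (f1 F) c' then
        bif midOK (f0 F) (fM F) (f1 F) then
          bif Nat.ble 1 (eS F) then fgo M B k r0 r1 cs (Nat.shiftRight F 144) true F a else false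
        else false
      else false
    else false

/-- **the check of a family**, `B = M/Q` -/
def famOK (M Q k r0 r1 F : ℕ) (certs : List (ℕ × ℕ × ℕ)) : Bool :=
  bif Nat.ble 1 Q then bif Nat.beq (Nat.mul Q (Nat.div M Q)) M then
    fgo M (Nat.div M Q) k r0 r1 certs F false 0 0 else false else false

end Pool.Agent.Lib.MP_af3a4a_an.P1.CHK.TAIL
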