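import Pool.Agent.Lib.MP_af3a4a_an.P1.CHK.TAIL.Pow
import Pool.Agent.Lib.MP_af3a4a_an.P1.CHK.TAIL.Defs

/-!
# Tails, part 3: the certificate of a family (council 2, helper62)
-/

set_option autoImplicit false

namespace Pool.Agent.Lib.MP_af3a4a_an.P1.CHK.TAIL

open Pool.Agent.Lib.MP_af3a4a_an.SV (uu av)
open Pool.Agent.Lib.MP_af3a4a_an.P1.H80
open Pool.Agent.Lib.MP_af3a4a_an.P1.CHK.H80
open Pool.Agent.Lib.MP_af3a4a_an.P1.CHK.H74
open Pool.Agent.Lib.MP_af3a4a_an.P1.CHK.H58 (S_cast)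
open Pool.Agent.Lib.MP_af3a4a_an.P1.CHK.Arith (es es_spec esL esL_spec)

/-- the real number of a field with offset -/
noncomputable def fr (G : ℕ) : ℝ := ((G : ℝ) - 8388608) / 1048576

theorem off_sub (G : ℕ) : (((G - 8388608 : ℕ) : ℝ) - ((8388608 - G : ℕ) : ℝ)) =
    (G : ℝ) - 8388608 := by
  rcases le_total G 8388608 with h | h
  · rw [Nat.sub_eq_zero_of_le h, Nat.cast_sub h]
    push_cast
    ring
  · rw [Nat.sub_eq_zero_of_le h, Nat.cast_sub h]
    push_cast
    ring

theorem off_fr (G : ℕ) : (((G - 8388608 : ℕ) : ℝ) - ((8388608 - G : ℕ) : ℝ)) / H58.S = fr G := by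
  rw [off_sub, S_cast]
  rfl

theorem node_sound {M k xm r0 r1 a G D H c : ℕ} (h : node M k xm r0 r1 a G D H c = true) {R : ℝ}
    (hR0 : (r0 : ℝ) / M ≤ R) (hR1 : R ≤ r1 / M) :
    ODual R ((xm : ℝ) / M * Real.cos (k / 64)) ((xm : ℝ) / M * Real.sin (k / 64))
      ((a : ℝ) / H58.S) (fr G) (fr D) (fr H) := by
  have := ochk_sound h hR0 hR1
  simp only [Nat.sub_eq] at this
  rw [off_fr, off_fr, off_fr] at this
  exact this

theorem es_fr (H : ℕ) : Real.exp (-(fr H)) ≤
    (es ((8388608 - H) * 1048576) ((H - 8388608) * 1048576) : ℝ) / 2 ^ 40 := by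
  refine le_trans (le_of_eq ?_) (es_spec _ _)
  congr 1
  have := off_sub H
  unfold fr
  rw [← this]
  push_cast
  ring

theorem esL_fr (H : ℕ) :
    (esL ((8388608 - H) * 1048576) ((H - 8388608) * 1048576) : ℝ) / 2 ^ 40 ≤
      Real.exp (-(fr H)) := by
  refine le_trans (esL_spec _ _) (le_of_eq ?_)
  congr 1
  have := off_sub H
  unfold fr
  rw [← this]
  push_cast
  ring

theorem midOK_sound {h0 hm h1 : ℕ} (h : midOK h0 hm h1 = true) :
    (Real.exp (-(fr h0)) + Real.exp (-(fr h1))) / 2 ≤ Real.exp (-(fr hm)) := by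
  unfold midOK at h
  rw [Nat.ble_eq] at h
  simp only [Nat.add_eq, Nat.mul_eq, Nat.sub_eq] at h
  have h' : ((es ((8388608 - h0) * 1048576) ((h0 - 8388608) * 1048576) +
      es ((8388608 - h1) * 1048576) ((h1 - 8388608) * 1048576) : ℕ) : ℝ) ≤
      ((2 * esL ((8388608 - hm) * 1048576) ((hm - 8388608) * 1048576) : ℕ) : ℝ) := by
    exact_mod_cast h
  push_cast at h'
  have e0 := es_fr h0
  have e1 := es_fr h1
  have e2 := esL_fr hm
  have e3 : (es ((8388608 - h0) * 1048576) ((h0 - 8388608) * 1048576) : ℝ) / 2 ^ 40 +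
      (es ((8388608 - h1) * 1048576) ((h1 - 8388608) * 1048576) : ℝ) / 2 ^ 40 ≤
      2 * ((esL ((8388608 - hm) * 1048576) ((hm - 8388608) * 1048576) : ℝ) / 2 ^ 40) := by
    rw [← add_div, ← mul_div_assoc]
    exact div_le_div_of_nonneg_right h' (by positivity)
  linarith

/-- the meaning of an entry -/
def PairE (Q k : ℕ) (R : ℝ) (e : ℕ) : Prop :=
  Pair R ((eJ e : ℝ) / Q) (((eJ e + eS e : ℕ) : ℝ) / Q) (Real.cos (k / 64)) (Real.sin (k / 64))
    (fr (fG e)) (fr (fD e)) (fr (f0 e)) (fr (fM e)) (fr (f1 e)) ∧ 1 ≤ eS e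

/-- the meaning of the right node of the previous entry -/
def PrevE (M B k r0 r1 : ℕ) (pe pa : ℕ) : Prop :=
  ∀ R : ℝ, (r0 : ℝ) / M ≤ R → R ≤ r1 / M →
    ODual R ((((eJ pe + eS pe) * B : ℕ) : ℝ) / M * Real.cos (k / 64))
      ((((eJ pe + eS pe) * B : ℕ) : ℝ) / M * Real.sin (k / 64))
      ((pa : ℝ) / H58.S) (fr (fG pe)) (fr (fD pe)) (fr (f1 pe))

theorem fgo_sound {M B Q k r0 r1 : ℕ} (hM : Q * B = M) (hQ : 0 < Q) (hB : 0 < B) :
    ∀ (certs : List (ℕ × ℕ × ℕ)) (F : ℕ) (fl : Bool) (pe pa : ℕ),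
    (fl = true → PrevE M B k r0 r1 pe pa) → fgo M B k r0 r1 certs F fl pe pa = true →
    ∀ i, i < certs.length → ∀ R : ℝ, (r0 : ℝ) / M ≤ R → R ≤ r1 / M →
      PairE Q k R (F >>> (144 * i)) := by
  intro certs
  induction certs with
  | nil =>
    intro F fl pe pa _ _ i hi
    exact absurd hi (Nat.not_lt_zero _)
  | cons t cs ih =>
    obtain ⟨a, c, c'⟩ := t
    intro F fl pe pa hprev h i hi R hR0 hR1
    rw [fgo] at h
    simp only [Bool.cond_eq_ite] at h
    have hx : ∀ j : ℕ, (((j * B : ℕ) : ℝ) / M) = (j : ℝ) / Q := by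
      intro j
      have hQ' : (0 : ℝ) < Q := Nat.cast_pos.2 hQ
      have hB' : (0 : ℝ) < B := Nat.cast_pos.2 hB
      rw [← hM]
      push_cast
      field_simp
    split_ifs at h with h1 h2 h3 h4 h5 h6 h7 h8
    · -- shared node
      rw [Bool.and_eq_true, Bool.and_eq_true, Bool.and_eq_true, Bool.and_eq_true,
        Bool.and_eq_true] at h2
      obtain ⟨g1, g2, g3, g4, g5, g6⟩ := h2
      have g2 := Nat.eq_of_beq_eq_true g2
      have g3 := Nat.eq_of_beq_eq_true g3
      have g4 := Nat.eq_of_beq_eq_true g4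
      have g5 := Nat.eq_of_beq_eq_true g5
      have g6 := Nat.eq_of_beq_eq_true g6
      change eJ pe + eS pe = eJ F at g6
      have hp := hprev g1
      have hL : ∀ R : ℝ, (r0 : ℝ) / M ≤ R → R ≤ r1 / M → ODual R ((eJ F : ℝ) / Q *
          Real.cos (k / 64)) ((eJ F : ℝ) / Q * Real.sin (k / 64)) ((a : ℝ) / H58.S) (fr (fG F))
          (fr (fD F)) (fr (f0 F)) := by
        intro R k0 k1
        have := hp R k0 k1
        rw [g2, g3, g4, g5, g6, hx] at this
        exact this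
      have hRt : PrevE M B k r0 r1 F a := fun R k0 k1 => node_sound h3 k0 k1
      rcases i with _ | i
      · rw [Nat.mul_zero, Nat.shiftRight_zero]
        refine ⟨⟨⟨_, hL R hR0 hR1, ?_⟩, midOK_sound h4⟩, Nat.le_of_ble_eq_true h5⟩
        have := hRt R hR0 hR1
        rw [hx] at this
        exact this
      · have := ih (F >>> 144) true F a (fun _ => hRt) h i (by
          simp only [List.length_cons] at hi
          omega) R hR0 hR1
        rw [← Nat.shiftRight_add] at this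
        rw [show 144 * (i + 1) = 144 + 144 * i by ring]
        exact this
    · -- new node
      have hL : ∀ R : ℝ, (r0 : ℝ) / M ≤ R → R ≤ r1 / M → ODual R ((eJ F : ℝ) / Q *
          Real.cos (k / 64)) ((eJ F : ℝ) / Q * Real.sin (k / 64)) ((a : ℝ) / H58.S) (fr (fG F))
          (fr (fD F)) (fr (f0 F)) := by
        intro R k0 k1
        have := node_sound h6 k0 k1
        rw [Nat.mul_eq, hx] at this
        exact this
      have hRt : PrevE M B k r0 r1 F a := fun R k0 k1 => node_sound h7 k0 k1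
      rcases i with _ | i
      · rw [Nat.mul_zero, Nat.shiftRight_zero]
        refine ⟨⟨⟨_, hL R hR0 hR1, ?_⟩, midOK_sound h8⟩, Nat.le_of_ble_eq_true (by assumption)⟩
        have := hRt R hR0 hR1
        rw [hx] at this
        exact this
      · have := ih (F >>> 144) true F a (fun _ => hRt) h i (by
          simp only [List.length_cons] at hi
          omega) R hR0 hR1
        rw [← Nat.shiftRight_add] at this
        rw [show 144 * (i + 1) = 144 + 144 * i by ring]
        exact this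

/-- the meaning of a family with `n` entries -/
def FamOK (M Q k r0 r1 F n : ℕ) : Prop :=
  0 < Q ∧ ∀ i, i < n → ∀ R : ℝ, (r0 : ℝ) / M ≤ R → R ≤ r1 / M → PairE Q k R (F >>> (144 * i))

/-- **soundness of the check of a family** -/
theorem famOK_sound {M Q k r0 r1 F : ℕ} {certs : List (ℕ × ℕ × ℕ)} (hM : 0 < M)
    (h : famOK M Q k r0 r1 F certs = true) : FamOK M Q k r0 r1 F certs.length := by
  unfold famOK at h
  simp only [Bool.cond_eq_ite] at h
  split_ifs at h with h1 h2
  have hQ : 0 < Q := Nat.le_of_ble_eq_true h1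
  have hB : Q * (M / Q) = M := Nat.eq_of_beq_eq_true h2
  refine ⟨hQ, fgo_sound hB hQ ?_ certs F false 0 0 (fun h => by cases h) h⟩
  rcases Nat.eq_zero_or_pos (M / Q) with h3 | h3
  · rw [h3, Nat.mul_zero] at hB
    omega
  · exact h3

end Pool.Agent.Lib.MP_af3a4a_an.P1.CHK.TAIL
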