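import Pool.Agent.Lib.MP_af3a4a_an.P1.CHK.TAIL.Defs

/-!
# Node tails, part 2: definitions (council 2, helper62)

ENTRY = NODE, stride 96 bits, lowest bits first: `j` (12 bits, `x = j/Q`), `KA` (12 bits,
`32 ≤ KA ρ²` for the radius `ρ` of the near condition), then three fields of 24 bits with offset
`2^23 = 8388608` in units `2^-20`: `γ`, `δ`, `h`.
-/

set_option autoImplicit false

namespace Pool.Agent.Lib.MP_af3a4a_an.P1.CHK.TAIL

open Pool.Agent.Lib.MP_af3a4a_an.P1.CHK.Arith (ep)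
open Pool.Agent.Lib.MP_af3a4a_an.P1.CHK.Curve (bi uE)
open Pool.Agent.Lib.MP_af3a4a_an.P1.CHK.BOX (tc ts)

/-- the index of the node -/
def nJ (e : ℕ) : ℕ :=
  (Nat.mod e 4096)

theorem nJ_def (e : ℕ) : nJ e =
    (e % 4096) := rfl

/-- `KA` -/
def nK (e : ℕ) : ℕ :=
  (Nat.mod (Nat.shiftRight e 12) 4096)

theorem nK_def (e : ℕ) : nK e =
    ((e >>> 12) % 4096) := rfl

/-- `γ` -/
def nG (e : ℕ) : ℕ :=
  (Nat.mod (Nat.shiftRight e 24) 16777216)

theorem nG_def (e : ℕ) : nG e =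
    ((e >>> 24) % 16777216) := rfl

/-- `δ` -/
def nD (e : ℕ) : ℕ :=
  (Nat.mod (Nat.shiftRight e 48) 16777216)

theorem nD_def (e : ℕ) : nD e =
    ((e >>> 48) % 16777216) := rfl

/-- `h` -/
def nH (e : ℕ) : ℕ :=
  (Nat.mod (Nat.shiftRight e 72) 16777216)

theorem nH_def (e : ℕ) : nH e =
    ((e >>> 72) % 16777216) := rfl

/-- upper bound of `exp (-m)` -/
def emF (m : ℕ) : ℕ :=
  ((fun t => (Nat.add (Nat.shiftRight (Nat.pow (Nat.add (Nat.shiftRight (Nat.add (Nat.pow (Nat.sub 1099511627776 t) 2) 1208925819614629174706176) 41) 1) 256) 10200) 1)) (Nat.shiftRight m 8))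

theorem emF_def (m : ℕ) : emF m =
    ((fun t => ((((((((1099511627776 - t) ^ 2) + 1208925819614629174706176) >>> 41) + 1) ^ 256) >>> 10200) + 1)) (m >>> 8)) := rfl

/-- upper bound of `exp p` -/
def epF (p : ℕ) : ℕ :=
  ((fun t => (bi (Nat.blt t 1099511627776) (Nat.add (Nat.shiftRight (Nat.pow (Nat.add (Nat.div 1208925819614629174706176 (Nat.sub 1099511627776 t)) 1) 256) 10200) 1) (ep p))) (Nat.add (Nat.shiftRight p 8) 1))

theorem epF_def (p : ℕ) : epF p =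
    ((fun t => (bi (Nat.blt t 1099511627776) (((((1208925819614629174706176 / (1099511627776 - t)) + 1) ^ 256) >>> 10200) + 1) (ep p))) ((p >>> 8) + 1)) := rfl

/-- upper bound of `exp (N (M - P))` -/
def nX (Na Nb P M : ℕ) : ℕ :=
  (bi (Nat.ble M P) (emF (Nat.shiftRight (Nat.mul Na (Nat.sub P M)) 32)) (epF (Nat.add (Nat.shiftRight (Nat.mul Nb (Nat.sub M P)) 32) 1)))

theorem nX_def (Na Nb P M : ℕ) : nX Na Nb P M =
    (bi (Nat.ble M P) (emF ((Na * (P - M)) >>> 32)) (epF (((Nb * (M - P)) >>> 32) + 1))) := rfl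

def kA (c s : ℕ) : ℕ :=
  (Nat.sub (Nat.add 1208925819614629191483392 (Nat.mul 8388608 (Nat.add c s))) 36893488147419103232)

theorem kA_def (c s : ℕ) : kA c s =
    ((1208925819614629191483392 + (8388608 * (c + s))) - 36893488147419103232) := rfl

/-- `2^80 - 2^60 (γ cos g + δ sin g)`, rounded up -/
def ngB (A G D c s : ℕ) : ℕ :=
  (Nat.sub (Nat.add A (Nat.mul 2199023255552 (Nat.add G D))) (Nat.add (Nat.mul G c) (Nat.mul D s)))

theorem ngB_def (A G D c s : ℕ) : ngB A G D c s =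
    ((A + (2199023255552 * (G + D))) - ((G * c) + (D * s))) := rfl

def nV (Na Nb r0 r1 mx H : ℕ) : ℕ :=
  (bi (Nat.ble mx 1208925819614629174706176) (nX Na Nb (Nat.add (Nat.mul H 4503599627370496) (Nat.mul r0 (Nat.sub 1208925819614629174706176 mx))) 37778931862957161709568) (nX Na Nb (Nat.mul H 4503599627370496) (Nat.add 37778931862957161709568 (Nat.mul r1 (Nat.sub mx 1208925819614629174706176)))))

theorem nV_def (Na Nb r0 r1 mx H : ℕ) : nV Na Nb r0 r1 mx H =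
    (bi (Nat.ble mx 1208925819614629174706176) (nX Na Nb ((H * 4503599627370496) + (r0 * (1208925819614629174706176 - mx))) 37778931862957161709568) (nX Na Nb (H * 4503599627370496) (37778931862957161709568 + (r1 * (mx - 1208925819614629174706176))))) := rfl

/-- upper bound of `exp (N V)` at the node -/
def nE (Na Nb r0 r1 A0 c0 s0 A1 c1 s1 cd e : ℕ) : ℕ :=
  (nV Na Nb r0 r1 (mxA (ngB A0 (nG e) (nD e) c0 s0) (ngB A1 (nG e) (nD e) c1 s1) cd) (nH e))

theorem nE_def (Na Nb r0 r1 A0 c0 s0 A1 c1 s1 cd e : ℕ) : nE Na Nb r0 r1 A0 c0 s0 A1 c1 s1 cd e =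
    (nV Na Nb r0 r1 (mxA (ngB A0 (nG e) (nD e) c0 s0) (ngB A1 (nG e) (nD e) c1 s1) cd) (nH e)) := rfl

/-- Newton step -/
def ns (p t : ℕ) : ℕ :=
  (Nat.add (Nat.div (Nat.add t (Nat.div p t)) 2) 1)

theorem ns_def (p t : ℕ) : ns p t =
    (((t + (p / t)) / 2) + 1) := rfl

/-- upper bound of the geometric mean -/
def gmN (a b : ℕ) : ℕ :=
  ((fun p => (ns p (ns p (Nat.add (Nat.div (Nat.add a b) 2) 1)))) (Nat.mul a b))

theorem gmN_def (a b : ℕ) : gmN a b =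
    ((fun p => (ns p (ns p (((a + b) / 2) + 1)))) (a * b)) := rfl

def zN (Nb s K : ℕ) : ℕ :=
  (Nat.mul Nb (Nat.mul (Nat.mul s s) K))

theorem zN_def (Nb s K : ℕ) : zN Nb s K =
    (Nb * ((s * s) * K)) := rfl

def okN (Q zz : ℕ) : Bool :=
  (Nat.blt (Nat.mul 3 zz) (Nat.mul 1536 (Nat.mul Q Q)))

theorem okN_def (Q zz : ℕ) : okN Q zz =
    (Nat.blt (3 * zz) (1536 * (Q * Q))) := rfl

/-- value of a cell between two nodes -/
def cN (Q s zz a b : ℕ) : ℕ :=
  (Nat.mul s (Nat.add (Nat.div (Nat.mul (Nat.add (Nat.add a b) (Nat.mul 2 (gmN a b))) (Nat.add (Nat.mul 1536 (Nat.mul Q Q)) zz)) (Nat.sub (Nat.mul 1536 (Nat.mul Q Q)) (Nat.mul 3 zz))) 1))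

theorem cN_def (Q s zz a b : ℕ) : cN Q s zz a b =
    (s * (((((a + b) + (2 * (gmN a b))) * ((1536 * (Q * Q)) + zz)) / ((1536 * (Q * Q)) - (3 * zz))) + 1)) := rfl

/-- cell with the AM-GM bound -/
def aN (Na Nb Q lp ln i j : ℕ) : ℕ :=
  (Nat.mul (Nat.sub j i) (Nat.add (Nat.add (uE Na Nb (Nat.mul 2 Q) lp ln (Nat.mul 2 i)) (Nat.mul 2 (uE Na Nb (Nat.mul 2 Q) lp ln (Nat.add i j)))) (uE Na Nb (Nat.mul 2 Q) lp ln (Nat.mul 2 j))))

theorem aN_def (Na Nb Q lp ln i j : ℕ) : aN Na Nb Q lp ln i j =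
    ((j - i) * (((uE Na Nb (2 * Q) lp ln (2 * i)) + (2 * (uE Na Nb (2 * Q) lp ln (i + j)))) + (uE Na Nb (2 * Q) lp ln (2 * j)))) := rfl

/-- the walk over the cells; result `0` = broken, otherwise `1 +` sum -/
def walkN (Na Nb Q r0 r1 A0 c0 s0 A1 c1 s1 cd lp ln je : ℕ) (K : ℕ) : ℕ → ℕ → ℕ → ℕ :=
  Nat.rec (fun F acc _ => bi (Nat.ble je (nJ F)) (Nat.add acc 1) 0)
    (fun _ ih F acc mask =>
      bi (Nat.blt (nJ F) (nJ (Nat.shiftRight F 96)))
        (bi (Nat.beq (Nat.mod mask 2) 1)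
          (ih (Nat.shiftRight F 96)
            (Nat.add acc (aN Na Nb Q lp ln (nJ F) (nJ (Nat.shiftRight F 96))))
            (Nat.shiftRight mask 1))
          (bi (okN Q (zN Nb (Nat.sub (nJ (Nat.shiftRight F 96)) (nJ F))
              (mx2 (nK F) (nK (Nat.shiftRight F 96)))))
            (ih (Nat.shiftRight F 96)
              (Nat.add acc (cN Q (Nat.sub (nJ (Nat.shiftRight F 96)) (nJ F))
                (zN Nb (Nat.sub (nJ (Nat.shiftRight F 96)) (nJ F))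
                  (mx2 (nK F) (nK (Nat.shiftRight F 96))))
                (nE Na Nb r0 r1 A0 c0 s0 A1 c1 s1 cd F)
                (nE Na Nb r0 r1 A0 c0 s0 A1 c1 s1 cd (Nat.shiftRight F 96))))
              (Nat.shiftRight mask 1))
            0))
        0) K

/-- **the tail**: upper bound of `2^24 (N+1) |∫_{js/Q}^{je/Q} q|`; `2^200` if broken -/
def tailN (Na Nb Q r0 r1 g0 g1 lp ln F n i0 K mask js je : ℕ) : ℕ :=
  (fun W => bi (Nat.beq W 0) 1606938044258990275541962092341162602522202993782792835301376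
    (Nat.add (Nat.div (Nat.mul (Nat.add Nb 1) W) (Nat.mul 262144 Q)) 1))
  (bi (bi (Nat.blt (Nat.add i0 K) n) (bi (Nat.ble (Nat.sub g1 g0) 100)
      (bi (Nat.ble js je) (Nat.ble (nJ (Nat.shiftRight F (Nat.mul 96 i0))) js) false) false) false)
    (walkN Na Nb Q r0 r1 (kA (tc g0) (ts g0)) (tc g0) (ts g0) (kA (tc g1) (ts g1)) (tc g1) (ts g1)
      (tc (Nat.sub g1 g0)) lp ln je K (Nat.shiftRight F (Nat.mul 96 i0)) 0 mask) 0)

end Pool.Agent.Lib.MP_af3a4a_an.P1.CHK.TAIL
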