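import Pool.Agent.Lib.MP_af3a4a_an.P1.CHK.H74.OffMain
import Pool.Agent.Lib.MP_af3a4a_an.P1.CHK.Curve.Nat2
import Pool.Agent.Lib.MP_af3a4a_an.P1.CHK.BOX.Trig

/-!
# Tails, part 1: half cells of a pair dual (council 2, helper62)
-/

set_option autoImplicit false

namespace Pool.Agent.Lib.MP_af3a4a_an.P1.CHK.TAIL

open MeasureTheory intervalIntegral
open Pool.Agent.Lib.MP_af3a4a_an.SV (uu av)
open Pool.Agent.Lib.MP_af3a4a_an.P1.H80
open Pool.Agent.Lib.MP_af3a4a_an.P1.CHK.H80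
open Pool.Agent.Lib.MP_af3a4a_an.P1.CHK.H74
open Pool.Agent.Lib.MP_af3a4a_an.P1.CHK.Curve (trap EN EN_nonneg EN_convex EN_cont norm_qq_le_EN)

/-- **between two nodes** with the same multipliers, the product form -/
theorem pow_le {N : ℕ} (hN : 1 ≤ N) {w : Fin N → ℂ} {ω : ℂ}
    {t x0 x1 R y1 y2 y1' y2' α γ δ h0 h1 : ℝ}
    (hD : ODual R y1 y2 α γ δ h0) (hD' : ODual R y1' y2' α γ δ h1)
    (hy : (x0 : ℂ) * ω = ⟨y1, -y2⟩) (hy' : (x1 : ℂ) * ω = ⟨y1', -y2'⟩) (hw : ∀ k, 1 ≤ ‖w k‖)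
    (ht : ∑ k, ‖w k - (R : ℂ)‖ ≤ N) (ht0 : 0 ≤ t) (ht1 : t ≤ 1) :
    ‖qq (ru w ω) ((1 - t) * x0 + t * x1)‖ ≤
      Real.exp (-(N * (γ * (av (uu w)).re + δ * (av (uu w)).im))) *
        ((1 - t) * Real.exp (-h0) + t * Real.exp (-h1)) ^ N := by
  have ht' : 0 ≤ 1 - t := by linarith
  obtain ⟨c, hc⟩ : ∃ c, c = (1 - t) * Real.exp (-h0) + t * Real.exp (-h1) := ⟨_, rfl⟩
  have hc0 : 0 ≤ c := by
    rw [hc]
    positivity
  rw [← hc]
  obtain ⟨A, hA⟩ : ∃ A : Fin N → ℝ, A = fun k =>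
      α * (‖w k - R‖ - 1) - γ * (uu w k).re - δ * (uu w k).im - 0 := ⟨_, rfl⟩
  have key : ∀ k, ‖1 - (((1 - t) * x0 + t * x1 : ℝ) : ℂ) * (ω * uu w k)‖ ≤
      Real.exp (A k) * c := by
    intro k
    have e : 1 - (((1 - t) * x0 + t * x1 : ℝ) : ℂ) * (ω * uu w k) =
        ((1 - t : ℝ) : ℂ) * (1 - (x0 : ℂ) * (ω * uu w k)) +
          ((t : ℝ) : ℂ) * (1 - (x1 : ℂ) * (ω * uu w k)) := by
      push_cast
      ring
    rw [e]
    refine (norm_add_le _ _).trans ?_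
    rw [norm_mul, norm_mul, Complex.norm_real, Complex.norm_real,
      Real.norm_of_nonneg ht', Real.norm_of_nonneg ht0, ← mul_assoc, hy, ← mul_assoc, hy']
    have b0 : ‖1 - (⟨y1, -y2⟩ : ℂ) * uu w k‖ ≤ Real.exp (A k) * Real.exp (-h0) := by
      rw [← Real.exp_add, hA]
      refine (hD.le (w k) (hw k)).trans (le_of_eq ?_)
      congr 1
      simp only [uu]
      ring
    have b1 : ‖1 - (⟨y1', -y2'⟩ : ℂ) * uu w k‖ ≤ Real.exp (A k) * Real.exp (-h1) := by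
      rw [← Real.exp_add, hA]
      refine (hD'.le (w k) (hw k)).trans (le_of_eq ?_)
      congr 1
      simp only [uu]
      ring
    calc (1 - t) * ‖1 - (⟨y1, -y2⟩ : ℂ) * uu w k‖ + t * ‖1 - (⟨y1', -y2'⟩ : ℂ) * uu w k‖
        ≤ (1 - t) * (Real.exp (A k) * Real.exp (-h0)) + t * (Real.exp (A k) * Real.exp (-h1)) :=
          add_le_add (mul_le_mul_of_nonneg_left b0 ht') (mul_le_mul_of_nonneg_left b1 ht0)
      _ = Real.exp (A k) * c := by
        rw [hc]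
        ring
  have g1 : ‖qq (ru w ω) ((1 - t) * x0 + t * x1)‖ ≤ Real.exp (∑ k, A k) * c ^ N := by
    unfold qq ru
    rw [norm_prod, Real.exp_sum]
    calc ∏ k, ‖1 - (((1 - t) * x0 + t * x1 : ℝ) : ℂ) * (ω * uu w k)‖
        ≤ ∏ k, (Real.exp (A k) * c) :=
          Finset.prod_le_prod (fun _ _ => norm_nonneg _) fun k _ => key k
      _ = _ := by
        rw [Finset.prod_mul_distrib]
        simp
  have g2 : Real.exp (∑ k, A k) ≤
      Real.exp (-(N * (γ * (av (uu w)).re + δ * (av (uu w)).im))) := by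
    rw [hA]
    have h := ODual.sum_le (γ := γ) (δ := δ) (h := 0) hN hD.nonneg ht
    rw [zero_add] at h
    exact Real.exp_le_exp.2 h
  exact g1.trans (mul_le_mul_of_nonneg_right g2 (pow_nonneg hc0 N))

/-- a pair dual on the cell `[x0, x1]` in the direction `(c, s)` -/
structure Pair (R x0 x1 c s γ δ h0 hm h1 : ℝ) : Prop where
  ex : ∃ α, ODual R (x0 * c) (x0 * s) α γ δ h0 ∧ ODual R (x1 * c) (x1 * s) α γ δ h1
  mid : (Real.exp (-h0) + Real.exp (-h1)) / 2 ≤ Real.exp (-hm)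

/-- the function which bounds `|q|` in the cell -/
noncomputable def fP (N : ℕ) (β x0 x1 A B x : ℝ) : ℝ :=
  Real.exp (-(N * β)) * ((1 - (x - x0) / (x1 - x0)) * A + (x - x0) / (x1 - x0) * B) ^ N

theorem fP_convex (N : ℕ) {β x0 x1 A B : ℝ} (h : x0 < x1) (hA : 0 ≤ A) (hB : 0 ≤ B) :
    ConvexOn ℝ (Set.Icc x0 x1) (fP N β x0 x1 A B) := by
  have hd : 0 < x1 - x0 := by linarith
  have h1 : ConvexOn ℝ (Set.Icc x0 x1)
      (fun x => (1 - (x - x0) / (x1 - x0)) * A + (x - x0) / (x1 - x0) * B) := by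
    refine ⟨convex_Icc _ _, fun x _ y _ a b _ _ hab => le_of_eq ?_⟩
    simp only [smul_eq_mul]
    have ha : a = 1 - b := by linarith
    rw [ha]
    field_simp
    ring
  have h2 := h1.pow (fun x hx => by
    have h3 : 0 ≤ (x - x0) / (x1 - x0) := div_nonneg (by linarith [hx.1]) hd.le
    have h4 : (x - x0) / (x1 - x0) ≤ 1 := by
      rw [div_le_one hd]
      linarith [hx.2]
    have h5 := mul_nonneg (by linarith : 0 ≤ 1 - (x - x0) / (x1 - x0)) hA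
    have h6 := mul_nonneg h3 hB
    linarith) N
  exact h2.smul (Real.exp_pos _).le

theorem fP_cont (N : ℕ) (β x0 x1 A B : ℝ) : Continuous (fP N β x0 x1 A B) := by
  unfold fP
  fun_prop

section pair

variable {N : ℕ} {w : Fin N → ℂ} {R x0 x1 γ δ h0 hm h1 θ : ℝ}

/-- `|q|` in the cell -/
theorem Pair.le (hN : 1 ≤ N) (hw : ∀ k, 1 ≤ ‖w k‖) (ht : ∑ k, ‖w k - (R : ℂ)‖ ≤ N)
    (H : Pair R x0 x1 (Real.cos θ) (Real.sin θ) γ δ h0 hm h1) (hx : x0 < x1) {x : ℝ}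
    (hx1 : x0 ≤ x) (hx2 : x ≤ x1) :
    ‖qq (ru w (Complex.exp (-(θ : ℂ) * Complex.I))) x‖ ≤
      fP N (γ * (av (uu w)).re + δ * (av (uu w)).im) x0 x1 (Real.exp (-h0)) (Real.exp (-h1)) x := by
  obtain ⟨α, hD, hD'⟩ := H.ex
  have hd : 0 < x1 - x0 := by linarith
  have h := pow_le hN hD hD' (dir_eq x0 θ) (dir_eq x1 θ) hw ht
    (t := (x - x0) / (x1 - x0)) (div_nonneg (by linarith) hd.le) (by
      rw [div_le_one hd]
      linarith)
  have e : (1 - (x - x0) / (x1 - x0)) * x0 + (x - x0) / (x1 - x0) * x1 = x := by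
    field_simp
    ring
  rw [e] at h
  exact h

theorem fP_left (N : ℕ) (β : ℝ) (hx : x0 < x1) :
    fP N β x0 x1 (Real.exp (-h0)) (Real.exp (-h1)) x0 = Real.exp (-(N * (h0 + β))) := by
  unfold fP
  have : x1 - x0 ≠ 0 := by linarith
  rw [sub_self, zero_div, sub_zero, one_mul, zero_mul, add_zero, ← Real.exp_nat_mul,
    ← Real.exp_add]
  congr 1
  ring

theorem fP_right (N : ℕ) (β : ℝ) (hx : x0 < x1) :
    fP N β x0 x1 (Real.exp (-h0)) (Real.exp (-h1)) x1 = Real.exp (-(N * (h1 + β))) := by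
  unfold fP
  have : x1 - x0 ≠ 0 := by linarith
  rw [div_self this, sub_self, zero_mul, zero_add, one_mul, ← Real.exp_nat_mul,
    ← Real.exp_add]
  congr 1
  ring

theorem fP_mid (N : ℕ) (β : ℝ) (hx : x0 < x1)
    (hmid : (Real.exp (-h0) + Real.exp (-h1)) / 2 ≤ Real.exp (-hm)) :
    fP N β x0 x1 (Real.exp (-h0)) (Real.exp (-h1)) ((x0 + x1) / 2) ≤
      Real.exp (-(N * (hm + β))) := by
  unfold fP
  have hd : x1 - x0 ≠ 0 := by linarith
  have e : ((x0 + x1) / 2 - x0) / (x1 - x0) = 1 / 2 := by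
    field_simp
    ring
  rw [e]
  have e2 : (1 - 1 / 2) * Real.exp (-h0) + 1 / 2 * Real.exp (-h1) =
      (Real.exp (-h0) + Real.exp (-h1)) / 2 := by ring
  rw [e2]
  have h3 : ((Real.exp (-h0) + Real.exp (-h1)) / 2) ^ N ≤ Real.exp (-hm) ^ N :=
    pow_le_pow_left₀ (by positivity) hmid N
  refine (mul_le_mul_of_nonneg_left h3 (Real.exp_pos _).le).trans (le_of_eq ?_)
  rw [← Real.exp_nat_mul, ← Real.exp_add]
  congr 1
  ring

/-- left half of the cell -/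
theorem Pair.left (hN : 1 ≤ N) (hw : ∀ k, 1 ≤ ‖w k‖) (ht : ∑ k, ‖w k - (R : ℂ)‖ ≤ N)
    (H : Pair R x0 x1 (Real.cos θ) (Real.sin θ) γ δ h0 hm h1) (hx : x0 < x1) {E0 E1 : ℝ}
    (hE0 : Real.exp (-(N * (h0 + (γ * (av (uu w)).re + δ * (av (uu w)).im)))) ≤ E0)
    (hE1 : Real.exp (-(N * (hm + (γ * (av (uu w)).re + δ * (av (uu w)).im)))) ≤ E1) :
    ‖∫ x in x0..(x0 + x1) / 2, qq (ru w (Complex.exp (-(θ : ℂ) * Complex.I))) x‖ ≤
      (x1 - x0) / 4 * (E0 + E1) := by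
  set β := γ * (av (uu w)).re + δ * (av (uu w)).im with hβ
  have hm1 : x0 < (x0 + x1) / 2 := by linarith
  have h := norm_integral_le_of_norm_le hm1.le (μ := volume)
    (f := fun x => qq (ru w (Complex.exp (-(θ : ℂ) * Complex.I))) x)
    (g := fP N β x0 x1 (Real.exp (-h0)) (Real.exp (-h1)))
    (Filter.Eventually.of_forall fun x hx' =>
      H.le hN hw ht hx hx'.1.le (hx'.2.trans (by linarith)))
    ((fP_cont _ _ _ _ _ _).intervalIntegrable _ _)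
  refine h.trans ?_
  have hc := fP_convex N (β := β) hx (Real.exp_pos (-h0)).le (Real.exp_pos (-h1)).le
  have h2 := trap hc ⟨le_rfl, hx.le⟩ ⟨hm1.le, by linarith⟩ hm1 (fP_cont _ _ _ _ _ _).continuousOn
  refine h2.trans ?_
  rw [fP_left N β hx]
  have h3 := fP_mid N β hx H.mid
  have h4 : 0 ≤ (x1 - x0) / 4 := by linarith
  have h5 := mul_le_mul_of_nonneg_left (add_le_add hE0 (h3.trans hE1)) h4
  refine le_trans (le_of_eq ?_) h5
  ring

/-- right half of the cell -/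
theorem Pair.right (hN : 1 ≤ N) (hw : ∀ k, 1 ≤ ‖w k‖) (ht : ∑ k, ‖w k - (R : ℂ)‖ ≤ N)
    (H : Pair R x0 x1 (Real.cos θ) (Real.sin θ) γ δ h0 hm h1) (hx : x0 < x1) {E1 E2 : ℝ}
    (hE1 : Real.exp (-(N * (hm + (γ * (av (uu w)).re + δ * (av (uu w)).im)))) ≤ E1)
    (hE2 : Real.exp (-(N * (h1 + (γ * (av (uu w)).re + δ * (av (uu w)).im)))) ≤ E2) :
    ‖∫ x in (x0 + x1) / 2..x1, qq (ru w (Complex.exp (-(θ : ℂ) * Complex.I))) x‖ ≤
      (x1 - x0) / 4 * (E1 + E2) := by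
  set β := γ * (av (uu w)).re + δ * (av (uu w)).im with hβ
  have hm1 : (x0 + x1) / 2 < x1 := by linarith
  have h := norm_integral_le_of_norm_le hm1.le (μ := volume)
    (f := fun x => qq (ru w (Complex.exp (-(θ : ℂ) * Complex.I))) x)
    (g := fP N β x0 x1 (Real.exp (-h0)) (Real.exp (-h1)))
    (Filter.Eventually.of_forall fun x hx' =>
      H.le hN hw ht hx (le_trans (by linarith) hx'.1.le) hx'.2)
    ((fP_cont _ _ _ _ _ _).intervalIntegrable _ _)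
  refine h.trans ?_
  have hc := fP_convex N (β := β) hx (Real.exp_pos (-h0)).le (Real.exp_pos (-h1)).le
  have h2 := trap hc ⟨by linarith, hm1.le⟩ ⟨hx.le, le_rfl⟩ hm1 (fP_cont _ _ _ _ _ _).continuousOn
  refine h2.trans ?_
  rw [fP_right N β hx]
  have h3 := fP_mid N β hx H.mid
  have h4 : 0 ≤ (x1 - x0) / 4 := by linarith
  have h5 := mul_le_mul_of_nonneg_left (add_le_add (h3.trans hE1) hE2) h4
  refine le_trans (le_of_eq ?_) h5
  ring

end pair

/-- the AM-GM bound on an interval -/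
theorem am_int {N : ℕ} (hN : 1 ≤ N) {u : Fin N → ℂ} (hu : ∀ k, ‖u k‖ ≤ 1) {a b Ea Eb : ℝ}
    (hab : a < b) (hEa : EN N (av u).re a ≤ Ea) (hEb : EN N (av u).re b ≤ Eb) :
    ‖∫ x in a..b, qq u x‖ ≤ (b - a) / 2 * (Ea + Eb) := by
  have h := norm_integral_le_of_norm_le hab.le (μ := volume) (f := fun x => qq u x)
    (g := EN N (av u).re)
    (Filter.Eventually.of_forall fun x _ => norm_qq_le_EN hN hu x)
    ((EN_cont _ _).intervalIntegrable _ _)
  have hm : |(av u).re| ≤ 1 := (Complex.abs_re_le_norm _).trans (av_norm_le hN hu)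
  refine (h.trans (Curve.EN_trap hm N hab)).trans ?_
  have h4 : 0 ≤ (b - a) / 2 := by linarith
  have h5 := mul_le_mul_of_nonneg_left (add_le_add hEa hEb) h4
  refine le_trans (le_of_eq ?_) h5
  ring

end Pool.Agent.Lib.MP_af3a4a_an.P1.CHK.TAIL
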